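import Pool.Agent.SM2.St

/-!
# SM2, module ABI: the abstract weight identity modulo a two sided ideal
-/

set_option autoImplicit false

open Matrix Pool.Agent.Lib25 Pool.Agent.KM Pool.Agent.SM1

noncomputable section

namespace Pool.Agent.SM2

universe u v w

theorem t_ABI (hABT : S_ABT.{u, v}) : S_ABI.{u, v} := by
  intro S _ V _ D B I hI hDI hBI hmul cyc hD e e1 θ θ' he h1 h2 h3
  let J : TwoSidedIdeal S := TwoSidedIdeal.mk' (I : Set S) I.zero_mem
    (fun hx hy => I.add_mem hx hy) (fun hx => I.neg_mem hx)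
    (fun {x y} hy => (hI y hy x).2) (fun {x y} hx => (hI x hx y).1)
  obtain ⟨S', hS', π, hπ, hker⟩ : ∃ (S' : Type u) (_ : Ring S') (π : S →+* S'),
      Function.Surjective π ∧ ∀ x y, π x = π y ↔ x - y ∈ I :=
    ⟨J.ringCon.Quotient, inferInstance, J.ringCon.mk', J.ringCon.mk'_surjective, fun x y => by
      have h := RingCon.eq J.ringCon (a := x) (b := y)
      exact h.trans Iff.rfl⟩
  have hB0 : ∀ x x' y y', x - x' ∈ I → y - y' ∈ I → B x y = B x' y' := by
    intro x x' y y' hx hy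
    have e1 : B x y = B (x - x') y + B x' (y - y') + B x' y' := by
      rw [map_sub, AddMonoidHom.sub_apply, map_sub]
      abel
    rw [e1, (hBI _ hx y).1, (hBI _ hy x').2, zero_add, zero_add]
  have hs : ∀ x, π (Function.surjInv hπ x) = x := Function.surjInv_eq hπ
  obtain ⟨s, hs⟩ : ∃ s : S' → S, ∀ x, π (s x) = x := ⟨_, hs⟩
  have hsI : ∀ x, s (π x) - x ∈ I := fun x => (hker _ _).1 (hs (π x))
  have hsadd : ∀ x y, s (x + y) - (s x + s y) ∈ I := fun x y => (hker _ _).1 (by
    rw [map_add, hs, hs, hs])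
  let D' : S' →+ S' := AddMonoidHom.mk' (fun x => π (D (s x))) (by
    intro x y
    rw [← map_add, ← map_add]
    apply (hker _ _).2
    rw [← map_sub]
    exact hDI _ (hsadd x y))
  have hD' : ∀ x, D' (π x) = π (D x) := by
    intro x
    show π (D (s (π x))) = π (D x)
    apply (hker _ _).2
    rw [← map_sub]
    exact hDI _ (hsI x)
  let B1 : S' → S' →+ V := fun x => AddMonoidHom.mk' (fun y => B (s x) (s y)) (by
    intro y z
    rw [← map_add]
    exact hB0 _ _ _ _ (by rw [sub_self]; exact I.zero_mem) (hsadd y z))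
  let B' : S' →+ S' →+ V := AddMonoidHom.mk' B1 (by
    intro x y
    ext z
    show B (s (x + y)) (s z) = B (s x) (s z) + B (s y) (s z)
    rw [← AddMonoidHom.add_apply, ← map_add]
    exact hB0 _ _ _ _ (hsadd x y) (by rw [sub_self]; exact I.zero_mem))
  have hB' : ∀ x y, B' (π x) (π y) = B x y := by
    intro x y
    show B (s (π x)) (s (π y)) = B x y
    exact hB0 _ _ _ _ (hsI x) (hsI y)
  have hE : π e1 = π θ * π e * π θ' := by
    rw [← map_mul, ← map_mul]
    apply (hker _ _).2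
    have e3 : e1 - θ * e * θ' = (e1 * θ - θ * e) * θ' - e1 * (θ * θ' - 1) := by noncomm_ring
    rw [e3]
    exact I.sub_mem (hI _ h3 _).1 (hI _ h1 _).2
  have key := hABT D' B' (by
    intro x y
    obtain ⟨x, rfl⟩ := hπ x
    obtain ⟨y, rfl⟩ := hπ y
    rw [← map_mul, hD', hD', hD', hmul, map_add, map_mul, map_mul]) (by
    intro x y z
    obtain ⟨x, rfl⟩ := hπ x
    obtain ⟨y, rfl⟩ := hπ y
    obtain ⟨z, rfl⟩ := hπ z
    rw [← map_mul, ← map_mul, ← map_mul, hB', hB', hB', cyc]) (by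
    intro x y
    obtain ⟨x, rfl⟩ := hπ x
    obtain ⟨y, rfl⟩ := hπ y
    rw [hD', hD', hB', hB', hD]) (π e) (π θ) (π θ')
    (by rw [← map_mul]; exact (hker _ _).2 he)
    (by rw [← map_mul, ← map_one π]; exact (hker _ _).2 h1)
    (by rw [← map_mul, ← map_one π]; exact (hker _ _).2 h2)
  rw [← hE, hD', hD', hD', ← map_one π, ← map_mul, ← map_mul, ← map_mul, ← map_mul, ← map_mul,
    ← map_mul, ← map_sub, ← map_sub, hB', hB', hB'] at key
  exact key

end Pool.Agent.SM2
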