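import Pool.Agent.SM2.St

/-!
# The reduction of `ℤ[1/M]` modulo a power of a prime that does not divide `M`
-/

set_option autoImplicit false

open Pool.Agent.SUR (ZM)

noncomputable section

namespace Pool.Agent.SM2

namespace CHI

/-- every element of `ℤ[1/M]` has `p`-adic norm at most `1` -/
theorem norm_le {M p : ℕ} [Fact p.Prime] (hp : ¬p ∣ M) (x : ZM M) :
    ‖((x : ℚ) : ℚ_[p])‖ ≤ 1 := by
  obtain ⟨k, a, h⟩ := x.2
  have h1 : ((M : ℚ_[p])) ^ k * ((x : ℚ) : ℚ_[p]) = (a : ℚ_[p]) := by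
    have h2 := congrArg (fun q : ℚ => (q : ℚ_[p])) h
    push_cast at h2
    exact h2
  have h2 : ‖(M : ℚ_[p])‖ = 1 := by
    have h3 : ‖((M : ℤ) : ℚ_[p])‖ = 1 := by
      refine le_antisymm (Padic.norm_int_le_one _) ?_
      by_contra hlt
      rw [not_le, Padic.norm_intCast_lt_one_iff] at hlt
      exact hp (by exact_mod_cast hlt)
    exact_mod_cast h3
  have h3 := congrArg norm h1
  rw [norm_mul, norm_pow, h2, one_pow, one_mul] at h3
  rw [h3]
  exact Padic.norm_int_le_one _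

/-- the ring homomorphism to the `p`-adic integers -/
def toP {M p : ℕ} [Fact p.Prime] (hp : ¬p ∣ M) : ZM M →+* ℤ_[p] where
  toFun := fun x => ⟨((x : ℚ) : ℚ_[p]), norm_le hp x⟩
  map_one' := by
    apply Subtype.ext
    simp
  map_zero' := by
    apply Subtype.ext
    simp
  map_add' := fun x y => by
    apply Subtype.ext
    show (((x : ℚ) + (y : ℚ) : ℚ) : ℚ_[p]) = ((x : ℚ) : ℚ_[p]) + ((y : ℚ) : ℚ_[p])
    push_cast
    rfl
  map_mul' := fun x y => by
    apply Subtype.ext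
    show (((x : ℚ) * (y : ℚ) : ℚ) : ℚ_[p]) = ((x : ℚ) : ℚ_[p]) * ((y : ℚ) : ℚ_[p])
    push_cast
    rfl

theorem clear {M : ℕ} (v : ZM M) : ∃ (k : ℕ) (a : ℤ), ((M : ZM M) ^ k) * v = (a : ZM M) := by
  obtain ⟨k, a, h⟩ := v.2
  refine ⟨k, a, ?_⟩
  apply Subtype.ext
  push_cast
  exact h

end CHI

theorem t_CHI : S_CHI := by
  intro M hM
  refine ⟨fun p hp hpM K => ?_, fun v hv => ?_, fun v => CHI.clear v⟩
  · have : Fact p.Prime := ⟨hp⟩
    exact ⟨(PadicInt.toZModPow K).comp (CHI.toP hpM)⟩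
  · obtain ⟨k, a, h⟩ := CHI.clear v
    have hM0 : ((M : ZM M) ^ k) ≠ 0 := by
      intro h0
      have h1 := congrArg (fun z : ZM M => (z : ℚ)) h0
      push_cast at h1
      exact pow_ne_zero k (Nat.cast_ne_zero.2 hM.ne') h1
    have ha : a ≠ 0 := by
      rintro rfl
      rw [Int.cast_zero] at h
      exact mul_ne_zero hM0 hv h
    refine ⟨(a.sign : ZM M) * (M : ZM M) ^ k, a.natAbs, Int.natAbs_pos.2 ha, ?_⟩
    rw [mul_assoc, h, ← Int.cast_mul, Int.sign_mul_self]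
    simp
end Pool.Agent.SM2
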