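import Pool.Agent.SM2.St2

/-!
# SM2, module CLS: linear groups satisfy the condition
-/

set_option autoImplicit false
set_option linter.unusedSectionVars false

open Pool.Agent.SM1
open Pool.Agent.SUR (ZM)

noncomputable section

namespace Pool.Agent.SM2

universe u v w

namespace CLS

/-- the condition for one homomorphism, from the output of `S_LNR` -/
theorem ceul {F : Type u} [Field F] {n : ℕ} {G0 : Type u} [Group G0] (S : Set F) (hS : S.Finite)
    (hρ : ∀ g : G0, ¬IsOfFinOrder g →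
      ∃ ρ : Subgroup.centralizer {g} →* Matrix (Fin n) (Fin n) (Subring.closure S),
        ¬IsOfFinOrder (ρ (cel g))) {Q : Type v} [Group Q] (π : G0 →* Q)
    (hA : CharZero F → ∀ g : G0, AddH (Subring.closure S) (orderOf (π g))) : CEul π := by
  rcases Nat.eq_zero_or_pos n with hn | hn
  · subst hn
    refine ⟨F, inferInstance, S, 1, hS, one_pos, fun g hg => ?_⟩
    obtain ⟨ρ, h1⟩ := hρ g (hg g rfl)
    exact absurd (by rw [Subsingleton.elim (ρ (cel g)) 1]; exact IsOfFinOrder.one) h1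
  · exact ⟨F, inferInstance, S, n, hS, hn, fun g hg => ⟨fun h => hA h g, Or.inl (hρ g (hg g rfl))⟩⟩

theorem addH {F : Type u} [Field F] {R : Subring F} (hR : DetZ R) {S : Set F} (hS : S ⊆ R)
    (N : ℕ) : AddH (Subring.closure S) N := by
  intro a ha
  have hle : Subring.closure S ≤ R := Subring.closure_le.2 hS
  obtain ⟨ψ, hψ⟩ := hR (Subring.inclusion hle a) (fun h => ha (by
    have h3 : ((Subring.inclusion hle a : R) : F) = 0 := by
      rw [h]
      rfl
    exact Subtype.ext h3))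
  refine ⟨1, (Int.castAddHom (ZM 1)).comp (ψ.comp (Subring.inclusion hle).toAddMonoidHom),
    one_pos, Nat.coprime_one_left N, fun h => hψ ?_⟩
  have h2 : ((ψ (Subring.inclusion hle a) : ℤ) : ZM 1) = 0 := h
  exact_mod_cast h2

end CLS

theorem t_CLS (hLNR : S_LNR.{u}) (hNNF : Pool.Agent.SUR.s_NNF.{u}) : S_CLS.{u, v} := by
  refine ⟨fun F _ n R G hG hR Q _ π G0 hfg => ⟨G0, le_rfl, ?_⟩, fun F _ n G G0 hfg => ?_⟩
  · obtain ⟨S, hS, hSR, hρ⟩ := hLNR F n R G hG G0 hfg
    exact CLS.ceul S hS hρ _ fun h g => CLS.addH (hR h) hSR _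
  · obtain ⟨S, hS, -, hρ⟩ := hLNR F n ⊤ G (fun _ _ _ _ => Subring.mem_top _) G0 hfg
    by_cases hF : CharZero F
    · obtain ⟨M, hM, hψ⟩ := hNNF F S hS
      refine ⟨M, hM, fun Q _ _ π hQ => CLS.ceul S hS hρ π fun _ g a ha => ?_⟩
      obtain ⟨ψ, h1⟩ := hψ a.1 a.2 (fun h => ha (Subtype.ext h))
      exact ⟨M, ψ, hM, hQ.coprime_dvd_right (orderOf_dvd_natCard _), h1 a.2⟩
    · exact ⟨1, one_pos, fun Q _ _ π _ => CLS.ceul S hS hρ π fun h => absurd h hF⟩

end Pool.Agent.SM2
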