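import Pool.Agent.SM2.St2
import Pool.Agent.SUR.LCC

/-!
# COH: from the vanishing of cohomology to nilpotent Euler classes
-/

set_option autoImplicit false

open Pool.Agent.Lib25 Pool.Agent.KM Pool.Agent.SM1
open Pool.Agent.SUR (ZM NilEuler)

noncomputable section

namespace Pool.Agent.SM2

universe u v

namespace COH

open Pool.Agent.SUR.LLINx Pool.Agent.SUR.LCCx

/-- the ring generated by `1/M` consists of elements of `ℤ[1/M]` -/
theorem mem_ZM {M : ℕ} (hM : 0 < M) {x : ULift.{u} ℚ}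
    (hx : x ∈ Subring.closure {(ULift.up (1 / (M : ℚ)) : ULift.{u} ℚ)}) : x.down ∈ ZM M := by
  have h1 : Subring.closure {(ULift.up (1 / (M : ℚ)) : ULift.{u} ℚ)} ≤
      (ZM M).comap (ULift.ringEquiv : ULift.{u} ℚ ≃+* ℚ).toRingHom := by
    rw [Subring.closure_le]
    intro y hy
    rw [Set.mem_singleton_iff] at hy
    subst hy
    show (1 / (M : ℚ)) ∈ ZM M
    refine ⟨1, 1, ?_⟩
    have hM0 : (M : ℚ) ≠ 0 := Nat.cast_ne_zero.2 hM.ne'
    rw [pow_one, Int.cast_one]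
    field_simp
  exact h1 hx

/-- the inverse of the inclusion -/
def outZ {M : ℕ} (hM : 0 < M) :
    Subring.closure {(ULift.up (1 / (M : ℚ)) : ULift.{u} ℚ)} →+ ZM M where
  toFun x := ⟨x.1.down, mem_ZM hM x.2⟩
  map_zero' := rfl
  map_add' _ _ := rfl

theorem outZ_ne {M : ℕ} (hM : 0 < M)
    (a : Subring.closure {(ULift.up (1 / (M : ℚ)) : ULift.{u} ℚ)}) (ha : a ≠ 0) :
    outZ hM a ≠ 0 := by
  intro h
  apply ha
  have h1 : a.1.down = 0 := congrArg Subtype.val h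
  exact Subtype.ext (ULift.down_injective h1)

theorem addH {M : ℕ} (hM : 0 < M) {N N' : ℕ} (hMN : M.Coprime N) (hN : N' ∣ N) :
    AddH (Subring.closure {(ULift.up (1 / (M : ℚ)) : ULift.{u} ℚ)}) N' :=
  fun a ha => ⟨M, outZ hM, hM, Nat.Coprime.coprime_dvd_right hN hMN, outZ_ne hM a ha⟩

end COH

open Pool.Agent.SUR.LLINx Pool.Agent.SUR.LCCx COH

/-- COH -/
theorem t_COH (hLCOH : Pool.Agent.SUR.s_LCOH.{u}) : S_COH.{u, v} := by
  rintro G _ Q' _ π N hN ⟨M, r, hM, hMN, hr, hG⟩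
  refine ⟨ULift.{u} ℚ, inferInstance, {ULift.up (1 / (M : ℚ))}, r, Set.finite_singleton _, hr,
    fun g hg => ⟨fun _ => addH hM hMN (hN (π g)), Or.inr ⟨charZero_ulift, ?_⟩⟩⟩
  obtain ⟨j, k, h, Q, _, p, hj, hk, hhk, hinf, hc, hp, hker, hsub⟩ := hG g hg
  obtain ⟨s, φ, hE⟩ := hLCOH _ Q h hc hinf p hp hker M r hr hsub
  refine ⟨j, (k : Subring.closure {(ULift.up (1 / (M : ℚ)) : ULift.{u} ℚ)}),
    fun z => incR.{u} hM (s z), fun l => incR.{u} hM (φ l), hj, ?_, ?_⟩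
  · intro h0
    have h1 : ((k : ULift.{u} ℚ)) = ((0 : ℕ) : ULift.{u} ℚ) := by
      rw [Nat.cast_zero]
      exact congrArg Subtype.val h0
    exact hk.ne' (charZero_ulift.{u}.cast_injective h1)
  · rw [← hhk]
    exact nil_pow (incR.{u} hM) hE k

end Pool.Agent.SM2
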