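import Pool.Agent.SM2.St

/-!
# MP_e40716_gt (T1, second form): restriction of weights along injective homomorphisms
-/

set_option autoImplicit false

open Pool.Agent.SUR (ZM th Cub altS DegV IsWtA WtAtA)

noncomputable section

namespace Pool.Agent.SM2

universe u

namespace CWR

theorem th_map {Z Z' : Type u} [Group Z] [Group Z'] (φ : Z' →* Z) (a : FreeMonoid Z') :
    th Z (FreeMonoid.map φ a) = φ (th Z' a) := by
  have h : (th Z).comp (FreeMonoid.map φ) = φ.comp (th Z') := by
    apply FreeMonoid.hom_eq
    intro x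
    simp [th]
  exact DFunLike.congr_fun h a

theorem cub_map {Z Z' : Type u} [Group Z] [Group Z'] (φ : Z' →* Z) {S : Type}
    {c : (S → Bool) → FreeMonoid Z'} (h : Cub (th Z') c) :
    Cub (th Z) fun ε => FreeMonoid.map φ (c ε) := by
  induction h with
  | const a => exact Cub.const _
  | slot s a a' h =>
    have e : (fun ε : S → Bool => FreeMonoid.map φ (if ε s then a' else a)) =
        fun ε : S → Bool => if ε s then FreeMonoid.map φ a' else FreeMonoid.map φ a := by
      funext ε
      split_ifs <;> rfl
    rw [e]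
    exact Cub.slot s _ _ (by rw [th_map, th_map, h])
  | mul c c' _ _ ih ih' =>
    have e : (fun ε : S → Bool => FreeMonoid.map φ (c ε * c' ε)) =
        fun ε : S → Bool => FreeMonoid.map φ (c ε) * FreeMonoid.map φ (c' ε) := by
      funext ε
      exact map_mul _ _ _
    rw [e]
    exact Cub.mul _ _ ih ih'

end CWR

open CWR in
theorem t_CWR : S_CWR.{u} := by
  intro Z Z' _ _ φ hφ M r c
  rintro ⟨v, W, hv, ⟨h1, h2, h3⟩, hd⟩
  refine ⟨v, fun a b => W (FreeMonoid.map φ a) (FreeMonoid.map φ b), hv, ⟨?_, ?_, ?_⟩, ?_⟩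
  · intro a b d
    simp only [map_mul]
    exact h1 _ _ _
  · intro a b hab
    have := h2 _ _ hab
    rw [← map_mul, th_map] at this
    exact hφ this
  · intro a ha
    have := h3 (FreeMonoid.map φ a) (by rw [th_map, ha])
    simpa using this
  · intro c1 c2 hc1 hc2
    exact hd _ _ (cub_map φ hc1) (cub_map φ hc2)

end Pool.Agent.SM2
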