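import Pool.Agent.SM2.St2
import Pool.Agent.SM1.P_FIN2

/-!
# SM2, module FIN3: the theorem, weights on words
-/

set_option autoImplicit false
set_option linter.unusedSectionVars false

open Matrix Pool.Agent.Lib25 Pool.Agent.KM Pool.Agent.SM1

noncomputable section

namespace Pool.Agent.SM2

universe u v w

/-- `ZW` for the corestriction. -/
theorem FIN3.zw_range {G : Type u} [Group G] {Q : Type v} [Group Q] (π : G →* Q) (r : ℕ)
    (h : ZW π r) : ZW π.rangeRestrict r := by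
  intro g hg
  obtain ⟨M, hM, hMc, hC⟩ := h g fun g' hg' => hg g' (Subtype.ext hg')
  refine ⟨M, hM, ?_, hC⟩
  have h1 : orderOf (π.rangeRestrict g) = orderOf (π g) :=
    (Subgroup.orderOf_coe (π.rangeRestrict g)).symm
  rw [h1]
  exact hMc

theorem t_FIN3 (hFNS : S_FNS3.{u, v}) (hCOL : S_COL.{u}) : S_FIN3.{u, v} := by
  intro G _ Q _ _ π hLZ x
  obtain ⟨G0, hG0, h⟩ := hCOL x
  obtain ⟨G1, hle, r, hZ⟩ := hLZ G0 hG0
  obtain ⟨x1, hx1⟩ := h G1 hle
  obtain ⟨n, s, hn, hs⟩ := hFNS (π.comp G1.subtype).rangeRestrict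
    (π.comp G1.subtype).rangeRestrict_surjective r (FIN3.zw_range _ r hZ) x1
  obtain ⟨t, ht⟩ := FIN2.asm_sub G1 s
  have hcomp : ∀ y : KNegOne (MonoidAlgebra ℤ G1),
      Kg (π.comp G1.subtype).range.subtype (Kg (π.comp G1.subtype).rangeRestrict y) =
        Kg π (Kg G1.subtype y) := by
    intro y
    rw [Kg_comp, Kg_comp]
    rfl
  refine ⟨n, t, hn, ?_⟩
  rw [ht, ← hx1, ← hcomp, ← hcomp, ← map_nsmul, hs]

end Pool.Agent.SM2
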