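import Pool.Agent.SM2.St

/-!
# Project SM2, module FS2: `kapM W X` is zero for almost all classes
-/

set_option autoImplicit false
set_option linter.unusedSectionVars false

open Matrix Pool.Agent.Lib25 Pool.Agent.KM Pool.Agent.SM1
open Pool.Agent.SUR (ZM bil bilHom th Cub altS IK DegV IsWtA WtAtA)

namespace Pool.Agent.SM2

universe u v w

namespace FS2

variable {G : Type u} [Group G]

theorem WG_fin (a b : MonoidAlgebra ℤ (FreeMonoid G)) : ∃ F : Finset G,
    ∀ (A : Type) (_ : CommRing A) (W : FreeMonoid G → FreeMonoid G → A),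
    (∀ x y, th G (x * y) ∈ F → W x y = 0) → bilHom W a b = 0 := by
  classical
  induction a using MonoidAlgebra.induction_linear with
  | zero => exact ⟨∅, fun A _ W _ => by rw [map_zero, AddMonoidHom.zero_apply]⟩
  | add a a' h h' =>
    obtain ⟨F, hF⟩ := h
    obtain ⟨F', hF'⟩ := h'
    refine ⟨F ∪ F', fun A _ W hW => ?_⟩
    rw [map_add, AddMonoidHom.add_apply,
      hF A _ W fun x y h => hW x y (Finset.mem_union_left _ h),
      hF' A _ W fun x y h => hW x y (Finset.mem_union_right _ h), add_zero]
  | single x r =>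
    induction b using MonoidAlgebra.induction_linear with
    | zero => exact ⟨∅, fun A _ W _ => by rw [map_zero]⟩
    | add b b' h h' =>
      obtain ⟨F, hF⟩ := h
      obtain ⟨F', hF'⟩ := h'
      refine ⟨F ∪ F', fun A _ W hW => ?_⟩
      rw [map_add, hF A _ W fun x y h => hW x y (Finset.mem_union_left _ h),
        hF' A _ W fun x y h => hW x y (Finset.mem_union_right _ h), add_zero]
    | single y s =>
      refine ⟨{th G (x * y)}, fun A _ W hW => ?_⟩
      rw [Pool.Agent.SUR.bilHom_apply, Pool.Agent.SUR.bil_single,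
        hW x y (Finset.mem_singleton_self _), smul_zero]

theorem WM_fin (a b : LM (FreeMonoid G)) : ∃ F : Finset G,
    ∀ (A : Type) (_ : CommRing A) (W : FreeMonoid G → FreeMonoid G → A),
    (∀ x y, th G (x * y) ∈ F → W x y = 0) → WM W a b = 0 := by
  classical
  induction a using AddMonoidAlgebra.induction_linear with
  | zero => exact ⟨∅, fun A _ W _ => by rw [map_zero, AddMonoidHom.zero_apply]⟩
  | add a a' h h' =>
    obtain ⟨F, hF⟩ := h
    obtain ⟨F', hF'⟩ := h'
    refine ⟨F ∪ F', fun A _ W hW => ?_⟩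
    rw [map_add, AddMonoidHom.add_apply,
      hF A _ W fun x y h => hW x y (Finset.mem_union_left _ h),
      hF' A _ W fun x y h => hW x y (Finset.mem_union_right _ h), add_zero]
  | single n r =>
    induction b using AddMonoidAlgebra.induction_linear with
    | zero => exact ⟨∅, fun A _ W _ => by rw [map_zero]⟩
    | add b b' h h' =>
      obtain ⟨F, hF⟩ := h
      obtain ⟨F', hF'⟩ := h'
      refine ⟨F ∪ F', fun A _ W hW => ?_⟩
      rw [map_add, hF A _ W fun x y h => hW x y (Finset.mem_union_left _ h),
        hF' A _ W fun x y h => hW x y (Finset.mem_union_right _ h), add_zero]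
    | single m s =>
      obtain ⟨F, hF⟩ := WG_fin r s
      refine ⟨F, fun A _ W hW => ?_⟩
      rw [WM_single]
      split_ifs
      · exact hF A _ W hW
      · rfl

end FS2

open FS2 in
/-- **FS2**. -/
theorem t_FS2 : S_FS2.{u, w} := by
  classical
  intro G _ ι _ _ X
  choose F hF using fun p : ι × ι =>
    WM_fin ((X.map DL * X - X * X.map DL) p.1 p.2) (X p.2 p.1)
  refine ⟨Finset.univ.biUnion F, fun r g A _ v W hW h => ?_⟩
  unfold kapM
  refine Finset.sum_eq_zero fun i _ => Finset.sum_eq_zero fun j _ => ?_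
  refine hF (i, j) A _ W fun x y hxy => ?_
  by_contra hne
  have h1 := hW.1.2.1 x y hne
  exact h _ (Finset.mem_biUnion.2 ⟨(i, j), Finset.mem_univ _, hxy⟩) (ConjClasses.mk_eq_mk_iff_isConj.1 h1)

end Pool.Agent.SM2
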