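import Pool.Agent.SM2.St2
import Pool.Agent.SUR.LLIN

/-!
# MP_e40716_gt (T1, second form), HOM: homomorphisms to the integers
-/

set_option autoImplicit false

open Matrix Pool.Agent.Lib25 Pool.Agent.KM Pool.Agent.SM1
open Pool.Agent.SUR (ZM)

universe u v

namespace Pool.Agent.SM2

namespace HOM

/-- the ring generated by the empty set is contained in the integers -/
theorem cle : Subring.closure (∅ : Set (ULift.{u} ℚ)) ≤
    (ZM 1).comap (ULift.ringEquiv : ULift.{u} ℚ ≃+* ℚ).toRingHom := by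
  rw [Subring.closure_le]
  exact Set.empty_subset _

/-- the homomorphism to `ℤ[1/1]` -/
def ps : Subring.closure (∅ : Set (ULift.{u} ℚ)) →+ ZM 1 where
  toFun x := ⟨(x : ULift.{u} ℚ).down, cle x.2⟩
  map_zero' := rfl
  map_add' _ _ := rfl

theorem ps_ne (a : Subring.closure (∅ : Set (ULift.{u} ℚ))) (ha : a ≠ 0) : ps a ≠ 0 := by
  intro h
  apply ha
  have h1 : (a : ULift.{u} ℚ).down = 0 := congrArg Subtype.val h
  exact Subtype.ext (ULift.down_injective h1)

end HOM

open HOM in
/-- HOM -/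
theorem t_HOM : S_HOM.{u, v} := by
  intro G _ Q _ π hZ
  refine ⟨ULift.{u} ℚ, inferInstance, ∅, 2, Set.finite_empty, by norm_num, fun g hg => ⟨?_, Or.inl ?_⟩⟩
  · intro _ a ha
    exact ⟨1, ps.{u}, one_pos, Nat.coprime_one_left _, ps_ne a ha⟩
  · obtain ⟨f, hf⟩ := hZ g hg
    let f' : Subgroup.centralizer {g} →*
        Multiplicative (Subring.closure (∅ : Set (ULift.{u} ℚ))) :=
      (AddMonoidHom.toMultiplicative
        (Int.castAddHom (Subring.closure (∅ : Set (ULift.{u} ℚ))))).comp f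
    have hf' : ∀ z, (f' z).toAdd = ((f z).toAdd : Subring.closure (∅ : Set (ULift.{u} ℚ))) :=
      fun z => rfl
    refine ⟨Pool.Agent.SUR.LLINx.uni f', fun h => hf ?_⟩
    obtain ⟨k, hk, hk1⟩ := isOfFinOrder_iff_pow_eq_one.1 h
    rw [← map_pow] at hk1
    have h1 := congrFun (congrFun hk1 0) 1
    have h2 : (f' (cel g ^ k)).toAdd = 0 := by
      simpa [Pool.Agent.SUR.LLINx.uni] using h1
    rw [hf'] at h2
    have h3 : (f (cel g ^ k)).toAdd = 0 := by
      have h4 : (((f (cel g ^ k)).toAdd : ℤ) : ULift.{u} ℚ) = 0 := by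
        have h5 := congrArg Subtype.val h2
        simpa using h5
      have h6 : (((f (cel g ^ k)).toAdd : ℤ) : ℚ) = 0 := congrArg ULift.down h4
      exact_mod_cast h6
    rw [map_pow, toAdd_pow] at h3
    exact (smul_eq_zero.1 h3).resolve_left hk.ne'

end Pool.Agent.SM2
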