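import Pool.Agent.SM2.St

/-!
# MP_e40716_gt (T1, second form), module IDL: the ideals
-/

set_option autoImplicit false
set_option linter.unusedSectionVars false

open Matrix Pool.Agent.Lib25 Pool.Agent.KM Pool.Agent.SM1
open Pool.Agent.SUR (ZM bil bilHom th Cub altS IK DegV IsWtA WtAtA sgB s_LIK)

noncomputable section

namespace Pool.Agent.SM2.IDL

universe u v w

/-! ### Coefficients -/

section Coeff

variable {R : Type*} [Ring R]

theorem coeff_mul_mem (I : AddSubgroup R) (hI : ∀ x ∈ I, ∀ y, x * y ∈ I ∧ y * x ∈ I)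
    (a b : LaurentPolynomial R) (ha : ∀ n : ℤ, a.coeff n ∈ I) :
    ∀ n : ℤ, (a * b).coeff n ∈ I ∧ (b * a).coeff n ∈ I := by
  induction b using AddMonoidAlgebra.induction_linear with
  | zero =>
    intro n
    rw [mul_zero, zero_mul]
    exact ⟨I.zero_mem, I.zero_mem⟩
  | add f g hf hg =>
    intro n
    rw [mul_add, add_mul]
    exact ⟨I.add_mem (hf n).1 (hg n).1, I.add_mem (hf n).2 (hg n).2⟩
  | single m c =>
    intro n
    rw [AddMonoidAlgebra.coeff_mul_single_apply, AddMonoidAlgebra.coeff_single_mul_apply]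
    exact ⟨(hI _ (ha _) c).1, (hI _ (ha _) c).2⟩

theorem coeff_DL (a : LaurentPolynomial R) (n : ℤ) : (DL a).coeff n = n • a.coeff n := by
  induction a using AddMonoidAlgebra.induction_linear with
  | zero => simp
  | add f g hf hg =>
    rw [map_add]
    change (DL f).coeff n + (DL g).coeff n = n • (f.coeff n + g.coeff n)
    rw [hf, hg, smul_add]
  | single m c =>
    rw [DL_single, AddMonoidAlgebra.coeff_single, AddMonoidAlgebra.coeff_single,
      Finsupp.single_apply, Finsupp.single_apply]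
    by_cases h : m = n
    · rw [if_pos h, if_pos h, h]
    · rw [if_neg h, if_neg h, smul_zero]

theorem coeff_nsmul (m : ℕ) (a : LaurentPolynomial R) (n : ℤ) :
    (m • a).coeff n = m • a.coeff n := rfl

theorem coeff_zero (n : ℤ) : (0 : LaurentPolynomial R).coeff n = 0 := rfl

theorem ext_coeff {a b : LaurentPolynomial R} (h : ∀ n : ℤ, a.coeff n = b.coeff n) : a = b :=
  AddMonoidAlgebra.coeff_injective (Finsupp.ext h)

end Coeff

/-! ### Matrices -/

section Mat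

variable {𝔐 𝔑 : Type u} [Monoid 𝔐] [Monoid 𝔑] {ι κ : Type w}

theorem InK_zero (θ : 𝔐 →* 𝔑) (K : ℕ) : InK θ K (0 : Matrix ι κ (LM 𝔐)) :=
  fun _ _ _ => (IK θ K).zero_mem

theorem InK_add {θ : 𝔐 →* 𝔑} {K : ℕ} {X Y : Matrix ι κ (LM 𝔐)} (hX : InK θ K X)
    (hY : InK θ K Y) : InK θ K (X + Y) :=
  fun i j n => (IK θ K).add_mem (hX i j n) (hY i j n)

theorem InK_neg {θ : 𝔐 →* 𝔑} {K : ℕ} {X : Matrix ι κ (LM 𝔐)} (hX : InK θ K X) :
    InK θ K (-X) :=
  fun i j n => (IK θ K).neg_mem (hX i j n)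

theorem InK_DL {θ : 𝔐 →* 𝔑} {K : ℕ} {X : Matrix ι κ (LM 𝔐)} (hX : InK θ K X) :
    InK θ K (X.map DL) := by
  intro i j n
  rw [Matrix.map_apply, coeff_DL]
  exact (IK θ K).zsmul_mem (hX i j n) n

theorem coeff_sum_mem (I : AddSubgroup (MonoidAlgebra ℤ 𝔐)) {σ : Type*} (s : Finset σ)
    (f : σ → LM 𝔐) (n : ℤ) (h : ∀ k ∈ s, (f k).coeff n ∈ I) : (∑ k ∈ s, f k).coeff n ∈ I := by
  classical
  induction s using Finset.induction_on with
  | empty => exact I.zero_mem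
  | insert a s ha ih =>
    rw [Finset.sum_insert ha]
    exact I.add_mem (h a (Finset.mem_insert_self _ _))
      (ih fun k hk => h k (Finset.mem_insert_of_mem hk))

theorem InK_mul (hLIK : s_LIK.{u}) {θ : 𝔐 →* 𝔑} {K : ℕ} [Fintype ι] {X : Matrix ι ι (LM 𝔐)}
    (hX : InK θ K X) (Y : Matrix ι ι (LM 𝔐)) : InK θ K (X * Y) ∧ InK θ K (Y * X) := by
  have hI := fun x hx y => (hLIK 𝔐 𝔑 θ).1 K x y hx
  constructor
  · intro i j n
    rw [Matrix.mul_apply]
    exact coeff_sum_mem _ _ _ _ fun k _ => (coeff_mul_mem _ hI _ _ (hX i k) n).1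
  · intro i j n
    rw [Matrix.mul_apply]
    exact coeff_sum_mem _ _ _ _ fun k _ => (coeff_mul_mem _ hI _ _ (hX k j) n).2

/-- The ideal. -/
def idl (θ : 𝔐 →* 𝔑) (r m : ℕ) : AddSubgroup (Matrix ι κ (LM 𝔐)) where
  carrier := {x | InI θ r m x}
  zero_mem' := ⟨0, 0, InK_zero _ _, by simp⟩
  add_mem' := by
    rintro _ _ ⟨Y, Z, hY, rfl⟩ ⟨Y', Z', hY', rfl⟩
    exact ⟨Y + Y', Z + Z', InK_add hY hY', by rw [smul_add]; abel⟩
  neg_mem' := by
    rintro _ ⟨Y, Z, hY, rfl⟩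
    exact ⟨-Y, -Z, InK_neg hY, by rw [smul_neg]; abel⟩

end Mat

/-! ### Functoriality -/

section Fun

theorem Cub_map {𝔐 𝔑 𝔐' 𝔑' : Type u} [Monoid 𝔐] [Monoid 𝔑] [Monoid 𝔐'] [Monoid 𝔑']
    (θ : 𝔐 →* 𝔑) (θ' : 𝔐' →* 𝔑') (l : 𝔐 →* 𝔐') (χ : 𝔑 →* 𝔑')
    (h : ∀ a, θ' (l a) = χ (θ a)) {S : Type*} {c : (S → Bool) → 𝔐} (hc : Cub θ c) :
    Cub θ' fun ε => l (c ε) := by
  induction hc with
  | const a => exact Cub.const (l a)
  | slot s a a' ha =>
    have h1 := Cub.slot (θ := θ') s (l a) (l a') (by rw [h, h, ha])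
    have h2 : (fun ε : S → Bool => l (if ε s then a' else a)) =
        fun ε => if ε s then l a' else l a := by
      funext ε
      split <;> rfl
    rw [h2]
    exact h1
  | mul c c' _ _ ih ih' =>
    have h2 : (fun ε : S → Bool => l (c ε * c' ε)) = fun ε => l (c ε) * l (c' ε) := by
      funext ε
      exact map_mul l _ _
    rw [h2]
    exact Cub.mul _ _ ih ih'

theorem IK_map {𝔐 𝔑 𝔐' 𝔑' : Type u} [Monoid 𝔐] [Monoid 𝔑] [Monoid 𝔐'] [Monoid 𝔑']
    (θ : 𝔐 →* 𝔑) (θ' : 𝔐' →* 𝔑') (l : 𝔐 →* 𝔐') (χ : 𝔑 →* 𝔑')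
    (h : ∀ a, θ' (l a) = χ (θ a)) (K : ℕ) (x : MonoidAlgebra ℤ 𝔐) (hx : x ∈ IK θ K) :
    mdh l x ∈ IK θ' K := by
  unfold IK at hx
  induction hx using AddSubgroup.closure_induction with
  | mem x hx =>
    obtain ⟨c, hc, rfl⟩ := hx
    apply AddSubgroup.subset_closure
    refine ⟨fun ε => l (c ε), Cub_map θ θ' l χ h hc, ?_⟩
    unfold altS
    rw [map_sum]
    refine Finset.sum_congr rfl fun ε _ => ?_
    rw [map_zsmul, mdh_single]
  | zero => rw [map_zero]; exact (IK θ' K).zero_mem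
  | add x y _ _ hx hy => rw [map_add]; exact (IK θ' K).add_mem hx hy
  | neg x _ hx => rw [map_neg]; exact (IK θ' K).neg_mem hx

end Fun

end Pool.Agent.SM2.IDL

namespace Pool.Agent.SM2

universe u v w

open IDL

/-- Module IDL. -/
theorem t_IDL (hLIK : s_LIK.{u}) : S_IDL.{u, w} := by
  refine ⟨?_, ?_, ?_⟩
  · intro 𝔐 𝔑 _ _ θ r m ι _ _
    refine ⟨idl θ r m, fun x => Iff.rfl, ?_, ?_, ?_, ?_⟩
    · rintro _ ⟨Y, Z, hY, rfl⟩ y
      constructor
      · exact ⟨Y * y, Z * y, (InK_mul hLIK hY y).1, by rw [add_mul, smul_mul_assoc]⟩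
      · exact ⟨y * Y, y * Z, (InK_mul hLIK hY y).2, by rw [mul_add, mul_smul_comm]⟩
    · rintro _ ⟨Y, Z, hY, rfl⟩
      refine ⟨Y.map DL, Z.map DL, InK_DL hY, ?_⟩
      ext1 i j
      simp only [Matrix.map_apply, Matrix.add_apply, Matrix.smul_apply, map_add, map_nsmul]
    · intro x hx
      exact ⟨x, 0, hx, by simp⟩
    · intro x
      exact ⟨0, x, InK_zero _ _, by simp⟩
  · intro 𝔐 𝔑 𝔐' 𝔑' _ _ _ _ θ θ' l χ h K ι _ _ x hx i j n
    rw [Matrix.map_apply]
    have h1 := lco_mapL (mdh l) (x i j) n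
    unfold lco at h1
    rw [h1]
    exact IK_map θ θ' l χ h K _ (hx i j n)
  · intro 𝔐 𝔑 _ _ θ r m A _ hm ι _ _ x hx
    obtain ⟨Y, Z, hY, rfl⟩ := hx
    ext1 i j
    rw [Matrix.map_apply, Matrix.zero_apply, Matrix.add_apply, Matrix.smul_apply, map_add,
      map_nsmul]
    have hfac : ∀ y : MonoidAlgebra ℤ 𝔐, cgmM (Int.castRingHom A) θ y =
        MonoidAlgebra.mapRingHom 𝔑 (Int.castRingHom A) (mdh θ y) := by
      intro y
      have h1 : cgmM (Int.castRingHom A) θ =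
          (MonoidAlgebra.mapRingHom 𝔑 (Int.castRingHom A)).comp (mdh θ) := by
        apply MonoidAlgebra.ringHom_ext'
        · ext1 z
          rw [RingHom.comp_apply, RingHom.comp_apply, RingHom.comp_apply]
          change cgmM _ θ (MonoidAlgebra.single 1 z) =
            MonoidAlgebra.mapRingHom 𝔑 (Int.castRingHom A) (mdh θ (MonoidAlgebra.single 1 z))
          rw [cgmM_single, mdh_single, MonoidAlgebra.mapRingHom_single]
        · ext1 z
          rw [MonoidHom.comp_apply, MonoidHom.comp_apply]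
          change cgmM _ θ (MonoidAlgebra.single z 1) =
            MonoidAlgebra.mapRingHom 𝔑 (Int.castRingHom A) (mdh θ (MonoidAlgebra.single z 1))
          rw [cgmM_single, mdh_single, MonoidAlgebra.mapRingHom_single]
      rw [h1, RingHom.comp_apply]
    have e1 : mapL (cgmM (Int.castRingHom A) θ) (Y i j) = 0 := by
      apply lco_ext
      intro n
      rw [lco_mapL, hfac]
      have h2 : mdh θ (lco (Y i j) n) = 0 :=
        (hLIK 𝔐 𝔑 θ).2.1 (r + 1) _ (Nat.succ_pos r) (hY i j n)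
      rw [h2, map_zero]
      rfl
    have e2 : m • mapL (cgmM (Int.castRingHom A) θ) (Z i j) = 0 := by
      apply lco_ext
      intro n
      change m • lco (mapL (cgmM (Int.castRingHom A) θ) (Z i j)) n = 0
      rw [← Nat.cast_smul_eq_nsmul A, hm, zero_smul]
    rw [e1, e2, add_zero]

end Pool.Agent.SM2
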