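import Pool.Agent.SM2.St

/-!
# MP_e40716_gt (T1, second form): the matrix `thM` modulo the ideal (module INV)
-/

set_option autoImplicit false
set_option linter.unusedSectionVars false

open Matrix Pool.Agent.Lib25 Pool.Agent.KM Pool.Agent.SM1
open Pool.Agent.SUR (ZM bil bilHom th Cub altS IK DegV IsWtA WtAtA)

noncomputable section

namespace Pool.Agent.SM2

universe u v w

namespace INV

section

variable {𝔐 : Type u} [Monoid 𝔐] {p : ℕ}

/-- the element `(1, c)` in the monoid ring -/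
def ga (𝔐 : Type u) [Monoid 𝔐] (p : ℕ) : MonoidAlgebra ℤ (𝔐 × Cy p) :=
  MonoidAlgebra.single ((1 : 𝔐), (Multiplicative.ofAdd 1 : Cy p)) 1

theorem ga_comm (x : MonoidAlgebra ℤ (𝔐 × Cy p)) : ga 𝔐 p * x = x * ga 𝔐 p := by
  induction x using MonoidAlgebra.induction_linear with
  | zero => rw [mul_zero, zero_mul]
  | add a b ha hb => rw [mul_add, add_mul, ha, hb]
  | single c r =>
    unfold ga
    rw [MonoidAlgebra.single_mul_single, MonoidAlgebra.single_mul_single, one_mul, mul_one]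
    have e : ((1 : 𝔐), (Multiplicative.ofAdd 1 : Cy p)) * c =
        c * ((1 : 𝔐), (Multiplicative.ofAdd 1 : Cy p)) :=
      Prod.ext ((one_mul c.1).trans (mul_one c.1).symm) (mul_comm _ _)
    rw [e]

/-- the central element `(1, c) - 1` -/
def uM (𝔐 : Type u) [Monoid 𝔐] (p : ℕ) : LM (𝔐 × Cy p) := LaurentPolynomial.C (ga 𝔐 p) - 1

theorem uM_comm (z : LM (𝔐 × Cy p)) : uM 𝔐 p * z = z * uM 𝔐 p := by
  have h : Commute (LaurentPolynomial.C (ga 𝔐 p)) z := by
    induction z using LaurentPolynomial.induction_on' with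
    | add x y hx hy => exact hx.add_right hy
    | C_mul_T n a =>
      have h1 : Commute (LaurentPolynomial.C (ga 𝔐 p)) (LaurentPolynomial.C a) := by
        show _ * _ = _ * _
        rw [← map_mul, ← map_mul, ga_comm]
      have h2 : Commute (LaurentPolynomial.C (ga 𝔐 p))
          (LaurentPolynomial.T n : LM (𝔐 × Cy p)) := (LaurentPolynomial.commute_T n _).symm
      exact h1.mul_right h2
  rw [uM, sub_mul, mul_sub, h.eq, one_mul, mul_one]

theorem mapL_CT {R S : Type*} [Ring R] [Ring S] (φ : R →+* S) (n : ℤ) (x : R) :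
    mapL φ (LaurentPolynomial.C x * LaurentPolynomial.T n) =
      LaurentPolynomial.C (φ x) * LaurentPolynomial.T n := by
  rw [← LaurentPolynomial.single_eq_C_mul_T, ← LaurentPolynomial.single_eq_C_mul_T]
  exact mapL_single φ n x

theorem pow_ga (n : ℕ) (g : 𝔐) (r : ℤ) :
    (ga 𝔐 p) ^ n * MonoidAlgebra.single (g, (1 : Cy p)) r =
      MonoidAlgebra.single (g, (Multiplicative.ofAdd (n : ZMod p) : Cy p)) r := by
  unfold ga
  rw [MonoidAlgebra.single_pow, MonoidAlgebra.single_mul_single, one_pow, one_mul]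
  congr 1
  refine Prod.ext ?_ ?_
  · show (1 : 𝔐) ^ n * g = g
    rw [one_pow, one_mul]
  · show (Multiplicative.ofAdd (1 : ZMod p)) ^ n * 1 = Multiplicative.ofAdd (n : ZMod p)
    rw [mul_one, ← ofAdd_nsmul, nsmul_one]

theorem ga_pow : (ga 𝔐 p) ^ p = 1 := by
  have h1 := pow_ga (𝔐 := 𝔐) (p := p) p 1 1
  rw [ZMod.natCast_self] at h1
  have h2 : (MonoidAlgebra.single ((1 : 𝔐), (1 : Cy p)) 1 :
      MonoidAlgebra ℤ (𝔐 × Cy p)) = 1 := by
    rw [MonoidAlgebra.one_def]
    rfl
  have h3 : (MonoidAlgebra.single ((1 : 𝔐), (Multiplicative.ofAdd (0 : ZMod p) : Cy p)) 1 :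
      MonoidAlgebra ℤ (𝔐 × Cy p)) = 1 := by
    rw [MonoidAlgebra.one_def]
    rfl
  rw [h2, h3, mul_one] at h1
  exact h1

/-- `(x - 1) ^ p` is a multiple of `p` -/
theorem pow_of {R : Type*} [Ring R] {p : ℕ} (hp : p.Prime) (x : R) (hx : x ^ p = 1) :
    ∃ s : R, (x - 1) ^ p = (p : ℕ) * s := by
  have hc : Commute x (-1 : R) := (Commute.one_right x).neg_right
  obtain ⟨r, hr⟩ := hc.exists_add_pow_prime_eq hp
  rw [sub_eq_add_neg, hr, hx]
  rcases hp.eq_two_or_odd' with h2 | h2
  · refine ⟨1 + x * (-1) * r, ?_⟩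
    have e1 : (-1 : R) ^ p = 1 := by
      rw [h2, neg_one_sq]
    have e2 : ((p : ℕ) : R) = 2 := by
      rw [h2, Nat.cast_ofNat]
    rw [e1, mul_add, mul_one, e2]
    simp only [mul_assoc]
    rw [one_add_one_eq_two]
  · refine ⟨x * (-1) * r, ?_⟩
    rw [h2.neg_one_pow]
    simp only [mul_assoc]
    rw [add_neg_cancel, zero_add]

theorem uM_pow (hp : p.Prime) (K : ℕ) : ∃ s : LM (𝔐 × Cy p), (uM 𝔐 p) ^ (p * K) = (p ^ K) • s := by
  have hγ : (LaurentPolynomial.C (ga 𝔐 p)) ^ p = 1 := by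
    rw [← map_pow, ga_pow, map_one]
  obtain ⟨s, hs⟩ := pow_of hp _ hγ
  refine ⟨s ^ K, ?_⟩
  rw [uM, pow_mul, hs, (Nat.cast_commute p s).mul_pow, ← Nat.cast_pow, nsmul_eq_mul]

end

section

variable {G : Type u} [Group G] {p : ℕ}

theorem ent [NeZero p] (q : G →* Cy p) (z : LM (FreeMonoid G)) :
    ∃ y : LM (FreeMonoid G × Cy p),
      mapL (mdh ((MonoidHom.id (FreeMonoid G)).prod (q.comp (th G)))) z -
        mapL (mdh (MonoidHom.inl (FreeMonoid G) (Cy p))) z = uM (FreeMonoid G) p * y := by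
  induction z using LaurentPolynomial.induction_on' with
  | add x y hx hy =>
    obtain ⟨a, ha⟩ := hx
    obtain ⟨b, hb⟩ := hy
    refine ⟨a + b, ?_⟩
    rw [map_add, map_add, mul_add, ← ha, ← hb]
    abel
  | C_mul_T n a =>
    induction a using MonoidAlgebra.induction_linear with
    | zero => exact ⟨0, by rw [map_zero, zero_mul, map_zero, map_zero, sub_zero, mul_zero]⟩
    | add x y hx hy =>
      obtain ⟨a, ha⟩ := hx
      obtain ⟨b, hb⟩ := hy
      refine ⟨a + b, ?_⟩
      rw [map_add, add_mul, map_add, map_add, mul_add, ← ha, ← hb]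
      abel
    | single g r =>
      rw [mapL_CT, mapL_CT]
      have e1 : mdh ((MonoidHom.id (FreeMonoid G)).prod (q.comp (th G)))
          (MonoidAlgebra.single g r) =
          (ga (FreeMonoid G) p) ^ (Multiplicative.toAdd (q (th G g))).val *
            MonoidAlgebra.single (g, (1 : Cy p)) r := by
        rw [pow_ga, mdh_single]
        have e2 : ((Multiplicative.ofAdd (((Multiplicative.toAdd (q (th G g))).val : ℕ) :
            ZMod p)) : Cy p) = q (th G g) := by
          rw [ZMod.natCast_val, ZMod.cast_id]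
          rfl
        rw [e2]
        rfl
      have e0 : mdh (MonoidHom.inl (FreeMonoid G) (Cy p)) (MonoidAlgebra.single g r) =
          MonoidAlgebra.single (g, (1 : Cy p)) r := by
        rw [mdh_single]
        rfl
      rw [e1, e0]
      generalize (Multiplicative.toAdd (q (th G g))).val = j
      generalize (MonoidAlgebra.single (g, (1 : Cy p)) r :
        MonoidAlgebra ℤ (FreeMonoid G × Cy p)) = x
      refine ⟨(∑ i ∈ Finset.range j, (LaurentPolynomial.C (ga (FreeMonoid G) p)) ^ i) *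
        (LaurentPolynomial.C x * LaurentPolynomial.T n), ?_⟩
      rw [uM, ← mul_assoc, mul_geom_sum, map_mul, map_pow, sub_mul, one_mul, mul_assoc]

end

/-- powers modulo a two sided ideal -/
theorem pow_cong {S : Type*} [Ring S] (I : AddSubgroup S)
    (hI : ∀ x ∈ I, ∀ y, x * y ∈ I ∧ y * x ∈ I) (a b : S) (h : a - b ∈ I) (n : ℕ) :
    a ^ n - b ^ n ∈ I := by
  induction n with
  | zero => rw [pow_zero, pow_zero, sub_self]; exact I.zero_mem
  | succ n ih =>
    have e : a ^ (n + 1) - b ^ (n + 1) = a ^ n * (a - b) + (a ^ n - b ^ n) * b := by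
      rw [pow_succ, pow_succ, mul_sub, sub_mul]
      abel
    rw [e]
    exact I.add_mem (hI _ h _).2 (hI _ ih _).1

theorem id1 {S : Type*} [Ring S] (e f : S) :
    (1 - (f * e + (1 - f) * (1 - e))) - (f - e) * (1 - 2 * e) = -((e * e - e) + (e * e - e)) := by
  simp only [mul_sub, sub_mul, mul_one, one_mul, two_mul, mul_add]
  abel

theorem id2 {S : Type*} [Ring S] (e f : S) :
    f * (f * e + (1 - f) * (1 - e)) - (f * e + (1 - f) * (1 - e)) * e =
      (f * f - f) * e - f * (e * e - e) - (f * f - f) * (1 - e) + (1 - f) * (e * e - e) := by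
  simp only [mul_sub, sub_mul, mul_one, one_mul, mul_add, add_mul, mul_assoc]
  abel

/-- the abstract form of the statement -/
theorem core {S : Type*} [Ring S] (I : AddSubgroup S) (hI : ∀ x ∈ I, ∀ y, x * y ∈ I ∧ y * x ∈ I)
    (e f D y s t : S) (m n : ℕ) (hee : e * e - e ∈ I) (hff : f * f - f ∈ I) (hd : f - e = D * y)
    (hc : ∀ z, Commute D z) (hD : D ^ n = m • s) (hm : ∀ x, m • x ∈ I)
    (ht : t = f * e + (1 - f) * (1 - e)) :
    f * t - t * e ∈ I ∧ ∃ T, t * T - 1 ∈ I ∧ T * t - 1 ∈ I := by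
  have hv : (1 - t) - D * (y * (1 - 2 * e)) ∈ I := by
    rw [← mul_assoc, ← hd, ht, id1]
    exact I.neg_mem (I.add_mem hee hee)
  have hpow : (1 - t) ^ n ∈ I := by
    have h3 := pow_cong I hI _ _ hv n
    rw [(hc _).mul_pow, hD, smul_mul_assoc] at h3
    have h4 := I.add_mem h3 (hm (s * (y * (1 - 2 * e)) ^ n))
    rwa [sub_add_cancel] at h4
  refine ⟨?_, ∑ i ∈ Finset.range n, (1 - t) ^ i, ?_, ?_⟩
  · rw [ht, id2]
    exact I.add_mem (I.sub_mem (I.sub_mem (hI _ hff _).1 (hI _ hee _).2) (hI _ hff _).1)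
      (hI _ hee _).2
  · have e5 := mul_neg_geom_sum (1 - t) n
    rw [sub_sub_cancel] at e5
    rw [e5, sub_sub_cancel_left]
    exact I.neg_mem hpow
  · have e5 := geom_sum_mul_neg (1 - t) n
    rw [sub_sub_cancel] at e5
    rw [e5, sub_sub_cancel_left]
    exact I.neg_mem hpow

end INV

open INV

theorem t_INV (hIDL : S_IDL.{u, w}) : S_INV.{u, w} := by
  intro G _ p K hp q r ι _ _ X hX
  have : NeZero p := ⟨hp.ne_zero⟩
  obtain ⟨h1, h2, -⟩ := hIDL
  obtain ⟨I, hmem, hI, -, hIK, hIm⟩ := h1 (thp G p) r (p ^ K) (ι := ι)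
  have hee : e0 p X * e0 p X - e0 p X ∈ I := by
    apply hIK
    have h := h2 (th G) (thp G p) (MonoidHom.inl (FreeMonoid G) (Cy p)) (MonoidHom.inl G (Cy p))
      (fun a => rfl) (r + 1) (X * X - X) hX
    rw [Matrix.map_sub (mapL (mdh (MonoidHom.inl (FreeMonoid G) (Cy p)))) (map_sub _),
      Matrix.map_mul] at h
    exact h
  have hff : e1 q X * e1 q X - e1 q X ∈ I := by
    apply hIK
    have h := h2 (th G) (thp G p) ((MonoidHom.id (FreeMonoid G)).prod (q.comp (th G)))
      ((MonoidHom.id G).prod q) (fun a => rfl) (r + 1) (X * X - X) hX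
    rw [Matrix.map_sub (mapL (mdh ((MonoidHom.id (FreeMonoid G)).prod (q.comp (th G)))))
      (map_sub _), Matrix.map_mul] at h
    exact h
  -- the divisibility
  have hent : ∀ i j, ∃ y : LM (FreeMonoid G × Cy p),
      (e1 q X - e0 p X) i j = uM (FreeMonoid G) p * y := fun i j => ent q (X i j)
  choose y hy using hent
  have hd : e1 q X - e0 p X = Matrix.diagonal (fun _ => uM (FreeMonoid G) p) * Matrix.of y := by
    ext i j : 2
    rw [Matrix.diagonal_mul, hy, Matrix.of_apply]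
  -- powers
  obtain ⟨s, hs⟩ := uM_pow (𝔐 := FreeMonoid G) hp K
  have hdiag : (Matrix.diagonal (fun _ : ι => uM (FreeMonoid G) p)) ^ (p * K) =
      (p ^ K) • Matrix.diagonal (fun _ : ι => s) := by
    rw [Matrix.diagonal_pow]
    ext i j : 2
    rw [Matrix.smul_apply]
    by_cases hij : i = j
    · subst hij
      rw [Matrix.diagonal_apply_eq, Matrix.diagonal_apply_eq, Pi.pow_apply, hs]
    · rw [Matrix.diagonal_apply_ne _ hij, Matrix.diagonal_apply_ne _ hij, smul_zero]
  have hcomm : ∀ z : Matrix ι ι (LM (FreeMonoid G × Cy p)),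
      Commute (Matrix.diagonal (fun _ : ι => uM (FreeMonoid G) p)) z := by
    intro z
    show _ * _ = _ * _
    ext i j : 2
    rw [Matrix.diagonal_mul, Matrix.mul_diagonal, uM_comm]
  obtain ⟨c1, T, c2, c3⟩ := core I hI (e0 p X) (e1 q X) _ (Matrix.of y) _ (thM q X) (p ^ K) (p * K)
    hee hff hd hcomm hdiag hIm rfl
  exact ⟨(hmem _).1 hee, (hmem _).1 c1, T, (hmem _).1 c2, (hmem _).1 c3⟩

end Pool.Agent.SM2
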