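import Pool.Agent.SM2.St
import Pool.Agent.SUR.LLIFT

/-!
# SM2: module LFT (helper63)
-/

set_option autoImplicit false
set_option linter.unusedSectionVars false
set_option maxHeartbeats 4000000

open Matrix Pool.Agent.Lib25 Pool.Agent.KM Pool.Agent.SM1
open Pool.Agent.SUR (ZM bil bilHom th Cub altS IK DegV IsWtA WtAtA)

noncomputable section

namespace Pool.Agent.SM2

universe u v w

namespace LFT

/-- coefficients of the image -/
theorem coeff_mapL {A B : Type*} [Ring A] [Ring B] (φ : A →+* B) (x : LaurentPolynomial A) (n : ℤ) :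
    (mapL φ x).coeff n = φ (x.coeff n) := by
  induction x using AddMonoidAlgebra.induction_linear with
  | zero => simp
  | add a b ha hb => rw [map_add, AddMonoidAlgebra.coeff_add, AddMonoidAlgebra.coeff_add,
      Finsupp.add_apply, Finsupp.add_apply, map_add, ha, hb]
  | single m r =>
    rw [mapL_single, AddMonoidAlgebra.coeff_single, AddMonoidAlgebra.coeff_single,
      Finsupp.single_apply, Finsupp.single_apply]
    split_ifs <;> simp

section General

variable {𝔐 𝔔 : Type u} [Monoid 𝔐] [Monoid 𝔔] {θ : 𝔐 →* 𝔔}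

theorem mem_zero (x : MonoidAlgebra ℤ 𝔐) : x ∈ IK θ 0 := by
  induction x using MonoidAlgebra.induction_linear with
  | zero => exact (IK θ 0).zero_mem
  | add f g hf hg => exact (IK θ 0).add_mem hf hg
  | single a r =>
    have h1 : (MonoidAlgebra.single a r : MonoidAlgebra ℤ 𝔐) = r • MonoidAlgebra.single a 1 := by
      rw [MonoidAlgebra.smul_single, smul_eq_mul, mul_one]
    rw [h1]
    refine (IK θ 0).zsmul_mem (AddSubgroup.subset_closure ⟨fun _ => a, Cub.const a, ?_⟩) r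
    simp [altS, Pool.Agent.SUR.sgB]

/-- coefficients of a product -/
theorem coeff_mul_mem {I : AddSubgroup (MonoidAlgebra ℤ 𝔐)} (x y : LM 𝔐)
    (h : ∀ m l, x.coeff m * y.coeff l ∈ I) (n : ℤ) : (x * y).coeff n ∈ I := by
  rw [AddMonoidAlgebra.coeff_mul]
  refine AddSubgroup.sum_mem _ fun m _ => AddSubgroup.sum_mem _ fun l _ => ?_
  dsimp only
  split_ifs
  · exact h m l
  · exact I.zero_mem

theorem coeff_sum {κ : Type*} (s : Finset κ) (f : κ → LM 𝔐) (n : ℤ) :
    (∑ k ∈ s, f k).coeff n = ∑ k ∈ s, (f k).coeff n := by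
  classical
  induction s using Finset.induction_on with
  | empty => simp
  | insert a s ha ih => rw [Finset.sum_insert ha, Finset.sum_insert ha,
      AddMonoidAlgebra.coeff_add, Finsupp.add_apply, ih]

variable {ι : Type w} [Fintype ι] [DecidableEq ι]

theorem inK_mul {I : AddSubgroup (MonoidAlgebra ℤ 𝔐)} (x y : Matrix ι ι (LM 𝔐))
    (h : ∀ i k j (m l : ℤ), (x i k).coeff m * (y k j).coeff l ∈ I) (i j : ι) (n : ℤ) :
    ((x * y) i j).coeff n ∈ I := by
  rw [Matrix.mul_apply, coeff_sum]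
  exact AddSubgroup.sum_mem _ fun k _ => coeff_mul_mem _ _ (h i k j) n

theorem inK_mul_right (hLIK : Pool.Agent.SUR.s_LIK.{u}) {K : ℕ} {x : Matrix ι ι (LM 𝔐)}
    (y : Matrix ι ι (LM 𝔐)) (h : InK θ K x) : InK θ K (x * y) :=
  fun i j n => inK_mul x y (fun i k _ m _ => ((hLIK 𝔐 𝔔 θ).1 K _ _ (h i k m)).1) i j n

theorem inK_pow (σ : 𝔔 → 𝔐) (hσ : ∀ q, θ (σ q) = q) {x : Matrix ι ι (LM 𝔐)}
    (hx : ∀ i j (n : ℤ), mdh θ ((x i j).coeff n) = 0) (K : ℕ) : InK θ K (x ^ K) := by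
  induction K with
  | zero => exact fun i j n => mem_zero _
  | succ K ih =>
    rw [pow_succ']
    exact fun i j n => inK_mul x (x ^ K) (fun i k j m l =>
      Pool.Agent.SUR.LLIFTx.ker_mul_mem σ hσ (hx i k m) (ih k j l)) i j n

end General

open Polynomial in
/-- idempotents modulo powers -/
theorem poly (k : ℕ) : ∃ P Q R : ℤ[X], P * P - P = (X * X - X) ^ (2 ^ k) * Q ∧
    P - X = (X * X - X) * R := by
  induction k with
  | zero => exact ⟨X, 1, 0, by ring, by ring⟩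
  | succ k ih =>
    obtain ⟨P, Q, R, h1, h2⟩ := ih
    refine ⟨3 * P ^ 2 - 2 * P ^ 3, Q ^ 2 * (4 * P ^ 2 - 4 * P - 3),
      R - (2 * P - 1) * ((X * X - X) ^ (2 ^ k - 1) * Q), ?_, ?_⟩
    · have e1 : (3 * P ^ 2 - 2 * P ^ 3) * (3 * P ^ 2 - 2 * P ^ 3) - (3 * P ^ 2 - 2 * P ^ 3) =
          (P * P - P) ^ 2 * (4 * P ^ 2 - 4 * P - 3) := by ring
      have e4 : (X * X - X : ℤ[X]) ^ (2 ^ (k + 1)) = ((X * X - X) ^ (2 ^ k)) ^ 2 := by
        rw [← pow_mul, ← pow_succ]
      rw [e1, h1, e4]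
      ring
    · have e2 : 3 * P ^ 2 - 2 * P ^ 3 - X = (P - X) - (2 * P - 1) * (P * P - P) := by ring
      have e3 : (X * X - X : ℤ[X]) ^ (2 ^ k) = (X * X - X) * (X * X - X) ^ (2 ^ k - 1) := by
        rw [← pow_succ', Nat.sub_add_cancel Nat.one_le_two_pow]
      rw [e2, h1, h2, e3]
      ring

end LFT

open LFT in
theorem t_LFT (hLIK : Pool.Agent.SUR.s_LIK.{u}) : S_LFT.{u, w} := by
  intro G _ ι _ _ E hE r
  have hσ : ∀ q : G, th G (FreeMonoid.of q) = q := fun q => by simp [Pool.Agent.SUR.th]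
  -- a lift
  have hs : ∀ x : LG ℤ G, ∃ y : LM (FreeMonoid G), mapL (mdh (th G)) y = x := by
    intro x
    induction x using AddMonoidAlgebra.induction_linear with
    | zero => exact ⟨0, map_zero _⟩
    | add a b ha hb =>
      obtain ⟨y, hy⟩ := ha
      obtain ⟨z, hz⟩ := hb
      exact ⟨y + z, by rw [map_add, hy, hz]⟩
    | single m c =>
      exact ⟨AddMonoidAlgebra.single m (MonoidAlgebra.mapDomain FreeMonoid.of c), by
        rw [mapL_single]
        exact congrArg _ (Pool.Agent.SUR.LLIFTx.map_section _ hσ c)⟩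
  choose s hs using hs
  set Φ : Matrix ι ι (LM (FreeMonoid G)) →ₐ[ℤ] Matrix ι ι (LG ℤ G) :=
    ((mapL (mdh (th G))).mapMatrix : Matrix ι ι (LM (FreeMonoid G)) →+* Matrix ι ι (LG ℤ G)).toIntAlgHom
    with hΦ
  have hΦm : ∀ x : Matrix ι ι (LM (FreeMonoid G)), Φ x = x.map (mapL (mdh (th G))) := fun x => rfl
  set X₀ : Matrix ι ι (LM (FreeMonoid G)) := E.map s with hX₀
  have hX₀E : Φ X₀ = E := by
    rw [hΦm]
    ext i j
    exact congrArg (fun z : LG ℤ G => z) (hs (E i j)) ▸ rfl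
  obtain ⟨P, Q, R, h1, h2⟩ := poly (r + 1)
  refine ⟨Polynomial.aeval X₀ P, ?_, ?_⟩
  · rw [← hΦm, ← Polynomial.aeval_algHom_apply, hX₀E]
    have h3 := congrArg (Polynomial.aeval E) h2
    rw [map_sub, map_mul, map_sub, map_mul, Polynomial.aeval_X, hE, sub_self, zero_mul] at h3
    exact sub_eq_zero.1 h3
  · have h3 := congrArg (Polynomial.aeval X₀) h1
    rw [map_sub, map_mul, map_mul, map_pow, map_sub, map_mul, Polynomial.aeval_X] at h3
    rw [h3]
    have h4 : r + 1 ≤ 2 ^ (r + 1) := Nat.lt_two_pow_self.le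
    have h5 : (X₀ * X₀ - X₀) ^ 2 ^ (r + 1) =
        (X₀ * X₀ - X₀) ^ (r + 1) * (X₀ * X₀ - X₀) ^ (2 ^ (r + 1) - (r + 1)) := by
      rw [← pow_add, Nat.add_sub_cancel' h4]
    rw [h5, mul_assoc]
    refine inK_mul_right hLIK _ (inK_pow _ hσ ?_ (r + 1))
    intro i j n
    have h6 : Φ (X₀ * X₀ - X₀) = 0 := by rw [map_sub, map_mul, hX₀E, hE, sub_self]
    have h7 := congrFun (congrFun h6 i) j
    rw [hΦm, Matrix.map_apply] at h7
    rw [← coeff_mapL, h7]
    rfl

end Pool.Agent.SM2
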