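import Pool.Agent.SM2.St2
import Pool.Agent.SUR.LLIN

/-!
# LNR: linear groups
-/

set_option autoImplicit false

open Matrix Pool.Agent.Lib25 Pool.Agent.KM Pool.Agent.SM1

noncomputable section

namespace Pool.Agent.SM2

universe u

open Pool.Agent.SUR.LLINx in
/-- LNR -/
theorem t_LNR : S_LNR.{u} := by
  intro F _ n R G hR G₁ hG₁
  obtain ⟨T, hT⟩ := hG₁
  let S : Set F := ⋃ a ∈ T, ents (a : GL (Fin n) F)
  have hS : S.Finite := T.finite_toSet.biUnion fun a _ => ents_finite a.1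
  have hSR : S ⊆ R := by
    intro x hx
    obtain ⟨a, ha, hxa⟩ := Set.mem_iUnion₂.1 hx
    rcases hxa with ⟨ij, rfl⟩ | ⟨ij, rfl⟩
    · exact hR a.1 a.2 ij.1 ij.2
    · exact hR (a.1)⁻¹ (G.inv_mem a.2) ij.1 ij.2
  let φ : G₁ →* GL (Fin n) F := G.subtype.comp G₁.subtype
  have hφ : Function.Injective φ := fun x y h => Subtype.ext (Subtype.ext h)
  have hle : G₁ ≤ (HR n (Subring.closure S)).comap G.subtype := by
    rw [← hT, Subgroup.closure_le]
    intro a ha i j
    have hsub : ents (a : GL (Fin n) F) ⊆ S := fun x hx => Set.mem_biUnion ha hx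
    exact ⟨Subring.subset_closure (hsub (Or.inl ⟨(i, j), rfl⟩)),
      Subring.subset_closure (hsub (Or.inr ⟨(i, j), rfl⟩))⟩
  have hmem : ∀ x : G₁, φ x ∈ HR n (Subring.closure S) := fun x => hle x.2
  refine ⟨S, hS, hSR, fun g hg => ?_⟩
  refine ⟨(toM (Subring.closure S) φ hmem).comp (Subgroup.centralizer {g}).subtype, fun h => hg ?_⟩
  obtain ⟨k, hk, hk1⟩ := isOfFinOrder_iff_pow_eq_one.1 h
  refine isOfFinOrder_iff_pow_eq_one.2 ⟨k, hk, toM_injective _ φ hmem hφ ?_⟩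
  rw [map_pow, map_one]
  exact hk1

end Pool.Agent.SM2
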