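import Pool.Agent.SM2.St2
import Pool.Agent.SM1.P_NUM

/-!
# SM2, module NUM2: the numbers are rational, weights on words
-/

set_option autoImplicit false
set_option linter.unusedSectionVars false
set_option maxHeartbeats 4000000

open Matrix Pool.Agent.Lib25 Pool.Agent.KM Pool.Agent.SM1 Pool.Agent.SM1.NUM

noncomputable section

namespace Pool.Agent.SM2

universe u v w

namespace NUM2

/-- The inclusion of the centraliser in a subgroup. -/
def cinc {G : Type u} [Group G] (G' : Subgroup G) (g : G') :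
    Subgroup.centralizer {g} →* Subgroup.centralizer {(g : G)} where
  toFun c := ⟨((c : G') : G), Subgroup.mem_centralizer_singleton_iff.2
    (congrArg Subtype.val (Subgroup.mem_centralizer_singleton_iff.1 c.2))⟩
  map_one' := rfl
  map_mul' _ _ := rfl

theorem cinc_inj {G : Type u} [Group G] (G' : Subgroup G) (g : G') :
    Function.Injective (cinc G' g) := by
  intro a b h
  apply Subtype.ext
  apply Subtype.ext
  exact congrArg (fun x : Subgroup.centralizer {(g : G)} => (x : G)) h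

/-- The numbers at one element `h`. -/
theorem main (hSUM : S_SUM2.{u, v}) (hRHO : S_RHO.{v}) (hRES1 : S_RES.{u, u, v})
    (hRES2 : S_RES.{v, 0, v}) (hRCM : S_RCM.{u, v}) (hTRV : S_TRV.{v})
    (hTRA : S_TRA.{u}) (hCWR : S_CWR.{u})
    {G : Type u} [Group G] {Q : Type v} [Group Q] [Finite Q] (π : G →* Q)
    (hπ : Function.Surjective π) (rr : ℕ) (hZ : ZW π rr) (z : K0 (LG ℤ G)) (m : ℕ)
    (E : IdemMat (LG ℤ Q)) (k0 : ℕ)
    (hX : KNegOne.mk (K0.of E - K0.of (IdemMat.free _ k0)) =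
      m • KNegOne.mk (K0.map (mapL (grm π)) z))
    (h : Q) (hno : NoFin π h) (hh : 1 < orderOf h) :
    ∃ r : ℚ, ∀ (p : ℕ) [Fact p.Prime] (zz : Q → ℤ_[p]), p ∣ orderOf h →
      TrivOver ℤ_[p] E.mat zz → (zz h : ℚ_[p]) = (r : ℚ_[p]) := by
  classical
  obtain ⟨N, hN⟩ : ∃ N, N = orderOf h := ⟨_, rfl⟩
  rw [← hN] at hh ⊢
  have : NeZero N := ⟨by omega⟩
  have hpw : h ^ N = 1 := by rw [hN]; exact pow_orderOf_eq_one h
  obtain ⟨φ, hφi, hφg⟩ : ∃ φ : Cy N →* Q, Function.Injective φ ∧ φ (gn N) = h :=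
    ⟨ZAD.hmg N h hpw, ZAD.hmg_inj hN.symm hpw, ZAD.hmg_gn N h hpw⟩
  let _ : Fintype (Q ⧸ φ.range) := Fintype.ofFinite _
  obtain ⟨s, hs⟩ := exists_tr π hπ φ hφi
  obtain ⟨hs', q, hq, hqc⟩ := hRCM.2 π φ s hs
  obtain ⟨θ, hθ⟩ := hRES1 (A := ℤ) (φ.range.comap π).subtype s hs'
  obtain ⟨θ', hθ'⟩ := hRES2 (A := ℤ) φ (fun i => π (s i)) hs
  have hc := hqc θ θ' hθ hθ'
  obtain ⟨c, hc0, hcc⟩ := hTRV N hh φ (fun i => π (s i)) hs θ' hθ'
  obtain ⟨ρ, hρ⟩ := hRHO N hh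
  -- the multiples of the images
  have key : ∀ F : IdemMat (LG ℤ G), ∃ D : ℕ, 0 < D ∧
      D • ρ (Kn θ' (Kg π (KNegOne.mk (K0.of F)))) = 0 := by
    intro F
    have hB := blow_idem (lau θ) F.idem
    obtain ⟨D, a, hD, hDa⟩ := hSUM N hh q rr (fun g hg => by
      have hgh : π (g : G) = h := by rw [← hq g, hg, hφg]
      obtain ⟨M, hM, hMc, hC⟩ := hZ (g : G) (by rw [hgh]; exact hno)
      rw [hgh, ← hN] at hMc
      have h1 : CW M rr (cel g) :=
        hCWR (cinc (φ.range.comap π) g) (cinc_inj _ g) M rr (cel g) hC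
      obtain ⟨v, W, hv, hW, hD⟩ := h1
      obtain ⟨W', hW'⟩ := hTRA rr g v W hW hD
      exact ⟨M, hM, hMc, v, W', hv, hW'⟩) (blow (lau θ) F.mat) hB
    refine ⟨D, hD, ?_⟩
    have h1 : KNegOne.mk (K0.of F) = ngo F.mat F.idem := by
      unfold ngo
      rw [of_eq_cl]
    have hB' : psh q (blow (lau θ) F.mat) * psh q (blow (lau θ) F.mat) =
      psh q (blow (lau θ) F.mat) := by
      rw [← Matrix.map_mul, hB]
    rw [h1, res_ngo π q θ θ' hc F.mat F.idem hB', hρ]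
    exact tcl_nsmul D _ a (fun p K => hDa p K (Nat.prime_of_mem_primeFactors p.2)
      (Nat.dvd_of_mem_primeFactors p.2))
  obtain ⟨D, hD, hDz⟩ : ∃ D : ℕ, 0 < D ∧ D • ρ (Kn θ' (Kg π (KNegOne.mk z))) = 0 := by
    obtain ⟨F, F', rfl⟩ := K0.exists_sub z
    obtain ⟨D, hD, h1⟩ := key F
    obtain ⟨D', hD', h2⟩ := key F'
    refine ⟨D * D', Nat.mul_pos hD hD', ?_⟩
    rw [map_sub, map_sub, map_sub, map_sub, smul_sub, mul_comm D D', mul_smul, h1, smul_zero,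
      mul_comm D' D, mul_smul, h2, smul_zero, sub_zero]
  have hE : ρ (Kn θ' (KNegOne.mk (K0.of E))) = tcl N (fun p K =>
      rg (cN N p (Nat.dvd_of_mem_primeFactors p.2)) (rd ((p : ℕ) ^ K) (blow (lau θ') E.mat))
        (gn N)) := by
    have h1 : KNegOne.mk (K0.of E) = ngo E.mat E.idem := by
      unfold ngo
      rw [of_eq_cl]
    rw [h1, Kn_ngo, hρ]
  have hI : ρ (Kn θ' (KNegOne.mk (K0.of (IdemMat.free (LG ℤ Q) k0)))) = 0 := by
    have h1 : KNegOne.mk (K0.of (IdemMat.free (LG ℤ Q) k0)) =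
        ngo (1 : Matrix (Fin k0) (Fin k0) (LG ℤ Q)) (Matrix.one_mul 1) := by
      unfold ngo
      rw [of_eq_cl]
      rfl
    rw [h1, Kn_ngo, hρ, tcl_eq_zero]
    refine ⟨0, fun p K => ?_⟩
    have : Fact (p : ℕ).Prime := ⟨Nat.prime_of_mem_primeFactors p.2⟩
    rw [hcc k0 1 (Matrix.one_mul 1) p (Nat.dvd_of_mem_primeFactors p.2) (fun _ => 0)
      (trivOver_one k0 p) K, map_zero, mul_zero, Int.cast_zero]
  have hfin : D • tcl N (fun p K =>
      rg (cN N p (Nat.dvd_of_mem_primeFactors p.2)) (rd ((p : ℕ) ^ K) (blow (lau θ') E.mat))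
        (gn N)) = 0 := by
    rw [← hE]
    have h1 : ρ (Kn θ' (KNegOne.mk (K0.of E))) =
        ρ (Kn θ' (KNegOne.mk (K0.of E - K0.of (IdemMat.free _ k0)))) := by
      rw [map_sub, map_sub, map_sub, hI, sub_zero]
    rw [h1, hX, map_nsmul, map_nsmul, smul_comm]
    change m • (D • ρ (Kn θ' (Kg π (KNegOne.mk z)))) = 0
    rw [hDz, smul_zero]
  obtain ⟨a, ha⟩ := exists_of_tcl_nsmul D _ hfin
  refine ⟨(a : ℚ) / ((D * c : ℕ) : ℚ), fun p _ zz hp hzz => ?_⟩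
  have hpN : p ∈ N.primeFactors := by
    rw [Nat.mem_primeFactors]
    exact ⟨Fact.out, hp, by omega⟩
  have h1 : ((D * c : ℕ) : ℤ_[p]) * zz h = (a : ℤ_[p]) := by
    rw [← PadicInt.ext_of_toZModPow]
    intro K
    have h2 := ha ⟨p, hpN⟩ K
    have h3 := hcc E.n E.mat E.idem p hp zz hzz K
    rw [hφg] at h3
    dsimp only at h2
    rw [h3] at h2
    rw [map_mul, map_natCast, map_intCast, Nat.cast_mul, mul_assoc]
    exact h2
  have h2 : ((D * c : ℕ) : ℚ_[p]) * (zz h : ℚ_[p]) = (a : ℚ_[p]) := by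
    rw [← PadicInt.coe_natCast, ← PadicInt.coe_mul, h1, PadicInt.coe_intCast]
  have h0 : ((D * c : ℕ) : ℚ_[p]) ≠ 0 := by
    rw [Nat.cast_ne_zero]
    exact (Nat.mul_pos hD hc0).ne'
  rw [Rat.cast_div, Rat.cast_intCast, Rat.cast_natCast, eq_div_iff h0, mul_comm]
  exact h2

end NUM2

/-- NUM2. -/
theorem t_NUM2 (hSUM : S_SUM2.{u, v}) (hRHO : S_RHO.{v}) (hRES1 : S_RES.{u, u, v})
    (hRES2 : S_RES.{v, 0, v}) (hRCM : S_RCM.{u, v}) (hTRV : S_TRV.{v})
    (hTRA : S_TRA.{u}) (hCWR : S_CWR.{u}) : S_NUM2.{u, v} := by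
  classical
  intro G _ Q _ _ π hπ rr hZ z X m hX w hw
  obtain ⟨E, k0, y, h1, -, h3⟩ := hw
  rw [h1] at hX
  have key : ∀ h : Q, ∃ r : ℚ, NoFin π h → ∀ (p : ℕ) [Fact p.Prime] (zz : Q → ℤ_[p]),
      p ∣ orderOf h → TrivOver ℤ_[p] E.mat zz → (zz h : ℚ_[p]) = (r : ℚ_[p]) := by
    intro h
    by_cases hno : NoFin π h
    · by_cases hh : 1 < orderOf h
      · obtain ⟨r, hr⟩ := NUM2.main hSUM hRHO hRES1 hRES2 hRCM hTRV hTRA hCWR π hπ rr hZ z m E k0 hX h hno hh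
        exact ⟨r, fun _ => hr⟩
      · refine ⟨0, fun _ p hp zz hd => ?_⟩
        exfalso
        have h4 : orderOf h = 1 := by
          have := orderOf_pos h
          omega
        rw [h4] at hd
        exact hp.out.one_lt.ne' (Nat.dvd_one.1 hd)
    · exact ⟨0, fun hno' => absurd hno' hno⟩
  choose r hr using key
  refine ⟨fun h => y h - r h, fun p _ h hp hno => ?_⟩
  obtain ⟨zz, hzz, hw⟩ := h3 p
  rw [hw h, hr h hno p zz hp hzz, Rat.cast_sub]

end Pool.Agent.SM2
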