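import Pool.Agent.SM2.St2
import Pool.Agent.SUR.LWE

/-!
# SM2, module REP: words of the centralisers with weights
-/

set_option autoImplicit false
set_option linter.unusedSectionVars false

open Pool.Agent.SUR Pool.Agent.SM1

noncomputable section

namespace Pool.Agent.SM2

universe u

namespace REP

theorem cen {G : Type u} [Group G] (g : G) (z : Subgroup.centralizer {g}) :
    cel g * z = z * cel g :=
  Subtype.ext (Subgroup.mem_centralizer_singleton_iff.1 z.2).symm

theorem cenp {G : Type u} [Group G] (g : G) (j : ℕ) (z : Subgroup.centralizer {g}) :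
    cel g ^ j * z = z * cel g ^ j :=
  (Commute.pow_left (cen g z : Commute (cel g) z) j).eq

theorem tors {M : ℕ} (j : ℕ) (a : ZM M) (hj : 0 < j) (h0 : j • a = 0) : a = 0 :=
  (smul_eq_zero.1 h0).resolve_left hj.ne'

/-- From a weight at a power with values in a subring to a weight at `g`. -/
theorem push (hPSH : s_LPSH.{u, u}) (hPOW : s_LPOW.{u}) {F : Type u} [Field F] (A : Subring F)
    (N : ℕ) (hA : AddH A N) {G : Type u} [Group G] (g : G) (j r : ℕ) (hj : 0 < j) (v : A)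
    (hv : v ≠ 0) (W : FreeMonoid (Subgroup.centralizer {g}) →
      FreeMonoid (Subgroup.centralizer {g}) → A)
    (hW : WtAtA (th (Subgroup.centralizer {g})) (cel g ^ j) v W)
    (hD : DegV (th (Subgroup.centralizer {g})) r W) :
    ∃ M : ℕ, 0 < M ∧ M.Coprime N ∧ CW M r (cel g) := by
  obtain ⟨M, ψ, hM, hMN, hψ⟩ := hA v hv
  have hP := hPSH (FreeMonoid (Subgroup.centralizer {g})) (Subgroup.centralizer {g})
    (Subgroup.centralizer {g}) A (ZM M) (th (Subgroup.centralizer {g})) ψ W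
  obtain ⟨v', W', hv', hW', hD'⟩ := hPOW (Subgroup.centralizer {g}) (ZM M) (cel g) (cen g)
    (fun j a hj h0 => tors j a hj h0) j r hj (ψ v) _ (hP.2 _ _ _ hW) (hP.1 _ hD)
  refine ⟨M, hM, hMN, v', W', fun h0 => hψ ?_, hW', hD'⟩
  rw [← hv', h0, smul_zero]

open LWTx in
theorem of_rep (hCORE : s_LCORE.{u, u}) (hCORE0 : s_LCORE.{u, 0}) (hPSH : s_LPSH.{u, u})
    (hPOW : s_LPOW.{u}) (hALG : s_LALG.{u, u}) (hEIG : s_LEIG.{u})
    (F : Type u) [Field F] (S : Set F) (hS : S.Finite) (n N : ℕ) {G : Type u} [Group G] (g : G)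
    (hA : CharZero F → AddH (Subring.closure S) N)
    (ρ : Subgroup.centralizer {g} →* Matrix (Fin n) (Fin n) (Subring.closure S))
    (hρg : ¬IsOfFinOrder (ρ (cel g))) :
    ∃ M : ℕ, 0 < M ∧ M.Coprime N ∧ CW M (n * n + 1 + 1) (cel g) := by
  let ρF : Subgroup.centralizer {g} →* Matrix (Fin n) (Fin n) F :=
    (inc (Subring.closure S) n).toMonoidHom.comp ρ
  by_cases h : ∀ k : ℕ, 0 < k → ¬IsNilpotent (ρF (cel g) ^ k - 1)
  · -- a homomorphism to the integers
    obtain ⟨f, hf⟩ := hEIG F S hS n (Subgroup.centralizer {g}) (cel g) (cen g) ρF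
      (fun z i j => (ρ z i j).2) h
    obtain ⟨W, hW, hD⟩ := hCORE0 (Subgroup.centralizer {g}) (ZM 1) (cel g) (cen g) _ _
      (isB_hom (M := 1) (cel g) f) (n * n + 1) Unit (fun _ _ => 1)
      (fun _ t => (((f t).toAdd : ℤ) : ZM 1)) (by simp) (fun w t => by simp)
    refine ⟨1, one_pos, Nat.coprime_one_left N, _, W, ?_, hW, hD⟩
    have h1 : (((f (cel g)).toAdd : ℤ) : ZM 1) ≠ 0 := Int.cast_ne_zero.2 hf
    exact mul_ne_zero (Nat.cast_ne_zero.2 (Nat.factorial_ne_zero _)) (pow_ne_zero _ h1)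
  · -- a power is unipotent
    push Not at h
    obtain ⟨k, hk, hnil⟩ := h
    have hinf : ∀ j : ℕ, 0 < j → ρ (cel g) ^ j ≠ 1 := fun j hj h1 =>
      hρg (isOfFinOrder_iff_pow_eq_one.2 ⟨j, hj, h1⟩)
    have hchar : CharZero F := by
      by_contra hc
      obtain ⟨p, hp⟩ := CharP.exists F
      have hp0 : p ≠ 0 := fun h0 => hc (by
        rw [h0] at hp
        exact CharP.charP_to_charZero F)
      have hpp : p.Prime := (CharP.char_is_prime_or_zero F p).resolve_right hp0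
      obtain ⟨j, hj, hj1⟩ := pow_eq_one p hpp n (ρF (cel g) ^ k) hnil
      refine hinf (k * j) (Nat.mul_pos hk hj) (inc_injective (Subring.closure S) n ?_)
      rw [map_pow, map_one, pow_mul]
      exact hj1
    have hnil' : IsNilpotent (ρ (cel g ^ k) - 1) := by
      obtain ⟨j, hj⟩ := hnil
      refine ⟨j, inc_injective (Subring.closure S) n ?_⟩
      rw [map_pow, map_sub, map_one, map_zero, map_pow, map_pow]
      exact hj
    have hne : ρ (cel g ^ k) ≠ 1 := by
      rw [map_pow]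
      exact hinf k hk
    obtain ⟨v, B, X, Y, hv, hB, hXY⟩ := hALG (Subring.closure S) n (Subgroup.centralizer {g})
      (cel g ^ k) (cenp g k) ρ hnil' hne
    obtain ⟨W, hW, hD⟩ := hCORE (Subgroup.centralizer {g}) (Subring.closure S) (cel g ^ k)
      (cenp g k) v B hB (n * n + 1) (Fin n × Fin n) X Y (by simp) hXY
    have hchar' : CharZero (Subring.closure S) := by
      refine ⟨fun a b hab => ?_⟩
      have h1 := congrArg (Subring.closure S).subtype hab
      rw [map_natCast, map_natCast] at h1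
      exact Nat.cast_injective h1
    have hv₁0 : ((n * n + 1 + 1).factorial : Subring.closure S) * v ^ (n * n + 1 + 1) ≠ 0 :=
      mul_ne_zero (Nat.cast_ne_zero.2 (Nat.factorial_ne_zero _)) (pow_ne_zero _ hv)
    exact push hPSH hPOW (Subring.closure S) N (hA hchar) g k (n * n + 1 + 1) hk _ hv₁0 W hW hD

end REP

/-- REP -/
theorem t_REP (hEUL : s_LEUL.{u, u}) (hMONO : s_LMONO.{u}) (hCORE : s_LCORE.{u, u})
    (hCORE0 : s_LCORE.{u, 0}) (hPSH : s_LPSH.{u, u}) (hPOW : s_LPOW.{u}) (hALG : s_LALG.{u, u})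
    (hEIG : s_LEIG.{u}) : S_REP.{u} := by
  intro F _ S hS n N hn G _ g hg
  obtain ⟨hA, ⟨ρ, hρg⟩ | ⟨hchar, j, v, s, φ, hj, hv, hE⟩⟩ := hg
  · obtain ⟨M, hM, hMN, v, W, hv, hW, hD⟩ :=
      REP.of_rep hCORE hCORE0 hPSH hPOW hALG hEIG F S hS n N g hA ρ hρg
    exact ⟨M, hM, hMN, v, W, hv, hW, hMONO _ _ _ _ _ _ _ (by omega) hD⟩
  · obtain ⟨W, hW, hD⟩ := hEUL (Subgroup.centralizer {g}) (Subring.closure S) (cel g ^ j)
      (REP.cenp g j) n v s φ hn hE
    obtain ⟨M, hM, hMN, v', W', hv', hW', hD'⟩ := REP.push hPSH hPOW (Subring.closure S) N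
      (hA hchar) g j n hj _ (pow_ne_zero n hv) W hW hD
    exact ⟨M, hM, hMN, v', W', hv', hW', hMONO _ _ _ _ _ _ _ (by omega) hD'⟩

end Pool.Agent.SM2
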