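import Pool.Agent.SM2.St
import Pool.Agent.SUR.LTRA

/-!
# MP_e40716_gt (T1, second form), module TRA: from words in the centraliser of `g` to words in `G`
-/

set_option autoImplicit false

universe u

open Pool.Agent.SUR (ZM bil bilHom th Cub altS IK DegV IsWtA WtAtA)

namespace Pool.Agent.SM2

namespace TRA

open Pool.Agent.SUR.LTRA

variable {G : Type u} [Group G]

theorem cub_TFG {g : G} {s : G → G} {z : G → G → Subgroup.centralizer {g}}
    (hz : ∀ y h, IsConj g y → (z y h : G) = (s y)⁻¹ * h * s (h⁻¹ * y * h)) {S : Type*}
    {c : (S → Bool) → FreeMonoid G} (hc : Cub (th G) c) (y : G) (hy : IsConj g y) :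
    Cub (th (Subgroup.centralizer {g})) fun ε => TF z y (c ε) := by
  induction hc generalizing y with
  | const a => exact Cub.const _
  | slot t a a' h =>
    have e : (fun ε : S → Bool => TF z y (if ε t then a' else a)) =
        fun ε => if ε t then TF z y a' else TF z y a := by
      funext ε
      split_ifs <;> rfl
    rw [e]
    refine Cub.slot t _ _ ?_
    apply Subtype.ext
    rw [TF_th hz y hy, TF_th hz y hy, h]
  | mul c c' hc hc' ih ih' =>
    have e1 : ∀ ε, th G (c ε) = th G (c fun _ => false) := fun ε => th_const hc ε _
    have e : (fun ε : S → Bool => TF z y (c ε * c' ε)) =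
        fun ε => TF z y (c ε) * TF z ((th G (c fun _ => false))⁻¹ * y *
          th G (c fun _ => false)) (c' ε) := by
      funext ε
      rw [TF_mul, e1]
    rw [e]
    refine Cub.mul _ _ (ih y hy) (ih' _ ?_)
    exact hy.trans (isConj_iff.2 ⟨(th G (c fun _ => false))⁻¹, by group⟩)

theorem clG_comm (a b : FreeMonoid G) : clG (a * b) = clG (b * a) := by
  unfold clG
  rw [ConjClasses.mk_eq_mk_iff_isConj, map_mul, map_mul]
  exact isConj_iff.2 ⟨(th G a)⁻¹, by group⟩

theorem of_clG {a : FreeMonoid G} {g : G} (h : clG a = ConjClasses.mk g) : IsConj g (th G a) :=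
  (ConjClasses.mk_eq_mk_iff_isConj.1 h).symm

theorem clG_congr {a b : FreeMonoid G} (h : th G a = th G b) : clG a = clG b := by
  unfold clG
  rw [h]

end TRA

open Pool.Agent.SUR.LTRA TRA in
/-- TRA -/
theorem t_TRA : S_TRA.{u} := by
  classical
  intro G _ A _ r g v W hW hd
  obtain ⟨s, z, hs, hz⟩ := exists_z g
  obtain ⟨w1, w2, w3⟩ := hW
  refine ⟨fun a b => if clG (a * b) = ConjClasses.mk g then
    W (TF z (th G (a * b)) a) (TF z (th G (b * a)) b) else 0, ⟨?_, ?_, ?_⟩, ?_⟩
  · intro a b c
    have c1 : clG (a * b * c) = clG (a * (b * c)) := by rw [mul_assoc]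
    have c2 : clG (c * a * b) = clG (a * (b * c)) := by
      rw [mul_assoc, clG_comm, mul_assoc]
    beta_reduce
    by_cases h : clG (a * (b * c)) = ConjClasses.mk g
    · rw [if_pos h, if_pos (c1.trans h), if_pos (c2.trans h)]
      simp only [map_mul, TF_mul]
      have e1 : (th G b)⁻¹ * (th G b * th G c * th G a) * th G b =
          th G c * (th G a * th G b) := by group
      have e2 : (th G a)⁻¹ * (th G a * th G b * th G c) * th G a =
          th G b * (th G c * th G a) := by group
      have e3 : (th G c)⁻¹ * (th G c * th G a * th G b) * th G c =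
          th G a * (th G b * th G c) := by group
      rw [e1, w1, e2, e3]
      simp only [mul_assoc]
    · rw [if_neg h, if_neg (fun h' => h (c1.symm.trans h')),
        if_neg (fun h' => h (c2.symm.trans h')), add_zero]
  · intro a b hab
    by_contra h
    exact hab (if_neg h)
  · intro a ha
    have h1 : clG (1 * a) = ConjClasses.mk g := by rw [one_mul]; exact ha
    show (if clG (1 * a) = ConjClasses.mk g then _ else _) = v
    rw [if_pos h1, TF_one, mul_one]
    apply w3
    have hc := of_clG ha
    apply Subtype.ext
    rw [TF_th hz _ hc]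
    have e1 := hs _ hc
    have e2 : (th G a)⁻¹ * th G a * th G a = th G a := by group
    rw [e2]
    show (s (th G a))⁻¹ * th G a * s (th G a) = g
    nth_rewrite 2 [← e1]
    group
  · intro c c' hc hc'
    by_cases h : clG ((c fun _ => false) * (c' fun _ => false)) = ConjClasses.mk g
    · have e1 : ∀ ε, th G (c ε * c' ε) =
          th G ((c fun _ => false) * (c' fun _ => false)) := by
        intro ε
        rw [map_mul, map_mul, th_const hc ε fun _ => false, th_const hc' ε fun _ => false]
      have e2 : ∀ ε, th G (c' ε * c ε) =
          th G ((c' fun _ => false) * (c fun _ => false)) := by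
        intro ε
        rw [map_mul, map_mul, th_const hc ε fun _ => false, th_const hc' ε fun _ => false]
      have hall : ∀ ε, clG (c ε * c' ε) = ConjClasses.mk g := fun ε =>
        (clG_congr (e1 ε)).trans h
      have hall' : ∀ ε, clG (c' ε * c ε) = ConjClasses.mk g := fun ε => by
        rw [clG_comm]; exact hall ε
      have := hd _ _ (cub_TFG hz hc _ (of_clG (hall fun _ => false)))
        (cub_TFG hz hc' _ (of_clG (hall' fun _ => false)))
      rw [← this]
      unfold altS
      refine Finset.sum_congr rfl fun ε _ => ?_
      simp only [if_pos (hall ε), e1, e2]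
    · have hall : ∀ ε, clG (c ε * c' ε) ≠ ConjClasses.mk g := by
        intro ε h3
        apply h
        rw [← h3]
        apply clG_congr
        rw [map_mul, map_mul, th_const hc ε fun _ => false, th_const hc' ε fun _ => false]
      unfold altS
      refine Finset.sum_eq_zero fun ε _ => ?_
      simp only [if_neg (hall ε), smul_zero]

end Pool.Agent.SM2
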