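import Pool.Agent.SM2.St

/-!
# MP_e40716_gt (T1, second form), module WLM: the form of a weight on matrices
-/

set_option autoImplicit false
set_option linter.unusedSectionVars false

open Matrix Pool.Agent.Lib25 Pool.Agent.KM Pool.Agent.SM1
open Pool.Agent.SUR (ZM bil bilHom th Cub altS IK DegV IsWtA WtAtA)

noncomputable section

namespace Pool.Agent.SM2

universe u v w

namespace WLM

section scalar

variable {A : Type} [CommRing A] {𝔐 : Type u} [Monoid 𝔐]

theorem bil_cyc {W : 𝔐 → 𝔐 → A} (hW : IsWtA W) (x y z : MonoidAlgebra ℤ 𝔐) :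
    bil W x (y * z) = bil W (x * y) z + bil W (z * x) y := by
  induction x using MonoidAlgebra.induction_linear with
  | zero => simp [Pool.Agent.SUR.bil_zero_left]
  | add f f' hf hf' =>
    rw [Pool.Agent.SUR.bil_add_left, hf, hf', add_mul, mul_add, Pool.Agent.SUR.bil_add_left,
      Pool.Agent.SUR.bil_add_left]
    abel
  | single a₁ r₁ =>
    induction y using MonoidAlgebra.induction_linear with
    | zero => simp [Pool.Agent.SUR.bil_zero_left, Pool.Agent.SUR.bil_zero_right]
    | add f f' hf hf' =>
      rw [add_mul, Pool.Agent.SUR.bil_add_right, hf, hf', mul_add, Pool.Agent.SUR.bil_add_left,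
        Pool.Agent.SUR.bil_add_right]
      abel
    | single a₂ r₂ =>
      induction z using MonoidAlgebra.induction_linear with
      | zero => simp [Pool.Agent.SUR.bil_zero_left, Pool.Agent.SUR.bil_zero_right]
      | add f f' hf hf' =>
        rw [mul_add, Pool.Agent.SUR.bil_add_right, hf, hf', add_mul,
          Pool.Agent.SUR.bil_add_right, Pool.Agent.SUR.bil_add_left]
        abel
      | single a₃ r₃ =>
        rw [MonoidAlgebra.single_mul_single, MonoidAlgebra.single_mul_single,
          MonoidAlgebra.single_mul_single, Pool.Agent.SUR.bil_single, Pool.Agent.SUR.bil_single,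
          Pool.Agent.SUR.bil_single, hW a₁ a₂ a₃, smul_add]
        congr 1
        · rw [mul_assoc]
        · rw [mul_assoc r₃, mul_comm r₃, mul_assoc]

theorem WM_cyc {W : 𝔐 → 𝔐 → A} (hW : IsWtA W) (x y z : LM 𝔐) :
    WM W x (y * z) = WM W (x * y) z + WM W (z * x) y := by
  induction x using AddMonoidAlgebra.induction_linear with
  | zero => simp
  | add f f' hf hf' =>
    rw [map_add, AddMonoidHom.add_apply, hf, hf', add_mul, mul_add, map_add, map_add,
      AddMonoidHom.add_apply, AddMonoidHom.add_apply]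
    abel
  | single n₁ r₁ =>
    induction y using AddMonoidAlgebra.induction_linear with
    | zero => simp
    | add f f' hf hf' =>
      rw [add_mul, map_add, hf, hf', mul_add, map_add, AddMonoidHom.add_apply, map_add]
      abel
    | single n₂ r₂ =>
      induction z using AddMonoidAlgebra.induction_linear with
      | zero => simp
      | add f f' hf hf' =>
        rw [mul_add, map_add, hf, hf', add_mul, map_add, map_add, AddMonoidHom.add_apply]
        abel
      | single n₃ r₃ =>
        rw [AddMonoidAlgebra.single_mul_single, AddMonoidAlgebra.single_mul_single,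
          AddMonoidAlgebra.single_mul_single, WM_single, WM_single, WM_single, bil_cyc hW]
        by_cases h : n₁ + (n₂ + n₃) = 0
        · rw [if_pos h, if_pos (by omega), if_pos (by omega)]
        · rw [if_neg h, if_neg (by omega), if_neg (by omega), add_zero]

theorem WM_der (W : 𝔐 → 𝔐 → A) (x y : LM 𝔐) :
    WM W (DL x) y + WM W x (DL y) = 0 := by
  induction x using AddMonoidAlgebra.induction_linear with
  | zero => simp
  | add f f' hf hf' =>
    rw [map_add, map_add, map_add, AddMonoidHom.add_apply, AddMonoidHom.add_apply,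
      add_add_add_comm, hf, hf', add_zero]
  | single n₁ r₁ =>
    induction y using AddMonoidAlgebra.induction_linear with
    | zero => simp
    | add f f' hf hf' =>
      rw [map_add, map_add, map_add, add_add_add_comm, hf, hf', add_zero]
    | single n₂ r₂ =>
      rw [DL_single, DL_single, WM_single, WM_single]
      by_cases h : n₁ + n₂ = 0
      · rw [if_pos h, if_pos h, ← Pool.Agent.SUR.bilHom_apply, ← Pool.Agent.SUR.bilHom_apply,
          map_zsmul, map_zsmul, AddMonoidHom.zsmul_apply, ← add_smul, h, zero_smul]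
      · rw [if_neg h, if_neg h, add_zero]

theorem WM_one {G : Type u} [Group G] {θ : 𝔐 →* G} {γ : G} {v : A} {W : 𝔐 → 𝔐 → A}
    (hW : WtAtA (fun a => ConjClasses.mk (θ a)) (ConjClasses.mk γ) v W) (x : LM 𝔐) :
    WM W 1 x = v * tauL γ (mapL (cgmM (Int.castRingHom A) θ) x) := by
  classical
  induction x using AddMonoidAlgebra.induction_linear with
  | zero => simp
  | add f f' hf hf' => rw [map_add, map_add, map_add, hf, hf', mul_add]
  | single n r =>
    have h1 : (1 : LM 𝔐) = AddMonoidAlgebra.single 0 1 := rfl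
    rw [h1, WM_single, mapL_single, tauL, AddMonoidHom.comp_apply, coeffZero_single, zero_add]
    by_cases hn : n = 0
    · rw [if_pos hn, if_pos hn]
      induction r using MonoidAlgebra.induction_linear with
      | zero => simp [Pool.Agent.SUR.bil_zero_right]
      | add f f' hf hf' => rw [Pool.Agent.SUR.bil_add_right, map_add, map_add, hf, hf', mul_add]
      | single y b =>
        have h2 : (1 : MonoidAlgebra ℤ 𝔐) = MonoidAlgebra.single 1 1 := rfl
        rw [h2, Pool.Agent.SUR.bil_single, cgmM_single, tau_single, one_mul]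
        by_cases hy : IsConj (θ y) γ
        · rw [if_pos hy, hW.2.2 y (ConjClasses.mk_eq_mk_iff_isConj.2 hy), zsmul_eq_mul, mul_comm]
          rfl
        · have h3 : W 1 y = 0 := by
            by_contra h
            have h4 := hW.2.1 1 y h
            rw [one_mul] at h4
            exact hy (ConjClasses.mk_eq_mk_iff_isConj.1 h4)
          rw [if_neg hy, h3, smul_zero, mul_zero]
    · rw [if_neg hn, if_neg hn, map_zero, mul_zero]

theorem WM_apply (W : 𝔐 → 𝔐 → A) (x y : LM 𝔐) :
    WM W x y = ∑ n ∈ x.coeff.support, bil W (x.coeff n) (y.coeff (-n)) := by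
  have h1 : WM W x = ∑ n ∈ x.coeff.support,
      (AddMonoidHom.compHom' (cfM (-n))).comp (bilHom W) (x.coeff n) := rfl
  rw [h1, AddMonoidHom.finsetSum_apply]
  rfl

theorem WM_IK (hLIK : Pool.Agent.SUR.s_LIK.{u}) {G : Type u} [Group G] {θ : 𝔐 →* G} {r : ℕ}
    {W : 𝔐 → 𝔐 → A} (hW : DegV θ r W) {x : LM 𝔐} (hx : ∀ n : ℤ, x.coeff n ∈ IK θ (r + 1))
    (y : LM 𝔐) : WM W x y = 0 ∧ WM W y x = 0 := by
  have h := ((hLIK 𝔐 G θ).2.2 A r W hW).1
  constructor
  · rw [WM_apply]
    exact Finset.sum_eq_zero fun n _ => (h _ _ (hx n)).1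
  · rw [WM_apply]
    exact Finset.sum_eq_zero fun n _ => (h _ _ (hx (-n))).2

end scalar

section matrix

variable {A : Type} [CommRing A] {𝔐 : Type u} [Monoid 𝔐] {ι : Type w} [Fintype ι]

/-- the form for matrices -/
def BM (W : 𝔐 → 𝔐 → A) : Matrix ι ι (LM 𝔐) →+ Matrix ι ι (LM 𝔐) →+ A :=
  AddMonoidHom.mk' (fun X => AddMonoidHom.mk' (fun Y => ∑ i, ∑ j, WM W (X i j) (Y j i)) (by
    intro Y Y'
    simp only [Matrix.add_apply, map_add, Finset.sum_add_distrib])) (by
    intro X X'
    ext Y
    simp only [AddMonoidHom.mk'_apply, AddMonoidHom.add_apply, Matrix.add_apply, map_add,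
      Finset.sum_add_distrib])

theorem BM_apply (W : 𝔐 → 𝔐 → A) (X Y : Matrix ι ι (LM 𝔐)) :
    BM W X Y = ∑ i, ∑ j, WM W (X i j) (Y j i) := rfl

end matrix

end WLM

open WLM in
theorem t_WLM (hLIK : Pool.Agent.SUR.s_LIK.{u}) : S_WLM.{u, w} := by
  intro 𝔐 G _ _ θ γ A _ v W r m hW hdeg hm ι _ _
  refine ⟨BM W, fun X Y => rfl, ?_, ?_, ?_, ?_⟩
  · intro x y z
    rw [BM_apply, BM_apply, BM_apply]
    have e1 : ∑ i, ∑ j, WM W (x i j) ((y * z) j i) =
        ∑ i, ∑ j, ∑ k, (WM W (x i j * y j k) (z k i) +
          WM W (z k i * x i j) (y j k)) := by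
      refine Finset.sum_congr rfl fun i _ => Finset.sum_congr rfl fun j _ => ?_
      rw [Matrix.mul_apply, map_sum]
      exact Finset.sum_congr rfl fun k _ => WM_cyc hW.1 _ _ _
    have e2 : ∑ i, ∑ j, WM W ((x * y) i j) (z j i) =
        ∑ i, ∑ j, ∑ k, WM W (x i j * y j k) (z k i) := by
      refine Finset.sum_congr rfl fun i _ => ?_
      rw [Finset.sum_comm]
      refine Finset.sum_congr rfl fun k _ => ?_
      rw [Matrix.mul_apply, map_sum, AddMonoidHom.finsetSum_apply]
    have e3 : ∑ i, ∑ j, WM W ((z * x) i j) (y j i) =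
        ∑ i, ∑ j, ∑ k, WM W (z k i * x i j) (y j k) := by
      have e4 : ∑ i, ∑ j, WM W ((z * x) i j) (y j i) =
          ∑ k, ∑ j, ∑ i, WM W (z k i * x i j) (y j k) := by
        refine Finset.sum_congr rfl fun k _ => Finset.sum_congr rfl fun j _ => ?_
        rw [Matrix.mul_apply, map_sum, AddMonoidHom.finsetSum_apply]
      rw [e4]
      calc ∑ k, ∑ j, ∑ i, WM W (z k i * x i j) (y j k)
          = ∑ k, ∑ i, ∑ j, WM W (z k i * x i j) (y j k) :=
            Finset.sum_congr rfl fun k _ => Finset.sum_comm
        _ = ∑ i, ∑ k, ∑ j, WM W (z k i * x i j) (y j k) := Finset.sum_comm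
        _ = ∑ i, ∑ j, ∑ k, WM W (z k i * x i j) (y j k) :=
            Finset.sum_congr rfl fun i _ => Finset.sum_comm
    rw [e1, e2, e3, ← Finset.sum_add_distrib]
    refine Finset.sum_congr rfl fun i _ => ?_
    rw [← Finset.sum_add_distrib]
    refine Finset.sum_congr rfl fun j _ => ?_
    rw [← Finset.sum_add_distrib]
  · intro x y
    rw [BM_apply, BM_apply, ← Finset.sum_add_distrib]
    refine Finset.sum_eq_zero fun i _ => ?_
    rw [← Finset.sum_add_distrib]
    refine Finset.sum_eq_zero fun j _ => ?_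
    rw [Matrix.map_apply, Matrix.map_apply]
    exact WM_der W _ _
  · intro x
    rw [BM_apply, Matrix.trace, map_sum, Finset.mul_sum]
    refine Finset.sum_congr rfl fun i _ => ?_
    rw [Finset.sum_eq_single i]
    · rw [Matrix.one_apply_eq, Matrix.diag_apply, Matrix.map_apply]
      exact WM_one hW _
    · intro j _ hj
      rw [Matrix.one_apply_ne (Ne.symm hj), map_zero, AddMonoidHom.zero_apply]
    · intro h
      exact absurd (Finset.mem_univ i) h
  · rintro x y ⟨Y, Z, hY, rfl⟩
    constructor
    · rw [BM_apply]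
      refine Finset.sum_eq_zero fun i _ => Finset.sum_eq_zero fun j _ => ?_
      rw [Matrix.add_apply, map_add, AddMonoidHom.add_apply, (WM_IK hLIK hdeg (hY i j) _).1,
        zero_add, Matrix.smul_apply, map_nsmul, AddMonoidHom.smul_apply, nsmul_eq_mul, hm,
        zero_mul]
    · rw [BM_apply]
      refine Finset.sum_eq_zero fun i _ => Finset.sum_eq_zero fun j _ => ?_
      rw [Matrix.add_apply, map_add, (WM_IK hLIK hdeg (hY j i) _).2,
        zero_add, Matrix.smul_apply, map_nsmul, nsmul_eq_mul, hm, zero_mul]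

end Pool.Agent.SM2
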