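import Pool.Agent.SM1.All
import Pool.Agent.SM2.P_ABI
import Pool.Agent.SM2.P_CHI
import Pool.Agent.SM2.P_CLS
import Pool.Agent.SM2.P_COH
import Pool.Agent.SM2.P_CWR
import Pool.Agent.SM2.P_FIN3
import Pool.Agent.SM2.P_FNS3
import Pool.Agent.SM2.P_FS2
import Pool.Agent.SM2.P_HOM
import Pool.Agent.SM2.P_IDL
import Pool.Agent.SM2.P_INV
import Pool.Agent.SM2.P_LFT
import Pool.Agent.SM2.P_LNR
import Pool.Agent.SM2.P_NUM2
import Pool.Agent.SM2.P_R2C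
import Pool.Agent.SM2.P_REP
import Pool.Agent.SM2.P_SUM2
import Pool.Agent.SM2.P_TRA
import Pool.Agent.SM2.P_WLM
import Pool.Agent.SUR.LIK
import Pool.Agent.SUR.LPSH
import Pool.Agent.SUR.LMSUM
import Pool.Agent.SUR.LKERW
import Pool.Agent.SUR.LKERD
import Pool.Agent.SUR.LALT
import Pool.Agent.SUR.LEDG
import Pool.Agent.SUR.LCORE
import Pool.Agent.SUR.LPOW
import Pool.Agent.SUR.LALG
import Pool.Agent.SUR.LEIG
import Pool.Agent.SUR.LMONO
import Pool.Agent.SUR.LEUL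
import Pool.Agent.SUR.LCUP
import Pool.Agent.SUR.LCBR
import Pool.Agent.SUR.LCOH
import Pool.Agent.SUR.NNF
import Pool.Agent.SUR.VALF
import Pool.Agent.SUR.VALG
import Pool.Agent.SUR.NFH
import Pool.Agent.SUR.LCO

/-!
# MP_e40716_gt (T1, second form): assembly of the proof
-/

set_option autoImplicit false

open Matrix Pool.Agent.Lib25 Pool.Agent.KM Pool.Agent.SM1
open Pool.Agent.SUR (ZM)

noncomputable section

namespace Pool.Agent.SM2

universe u v w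

theorem all_ABI : S_ABI.{u, v} := t_ABI t_ABT
theorem all_WLM : S_WLM.{u, w} := t_WLM Pool.Agent.SUR.t_LIK
theorem all_IDL : S_IDL.{u, w} := t_IDL Pool.Agent.SUR.t_LIK
theorem all_INV : S_INV.{u, w} := t_INV all_IDL
theorem all_R2C : S_R2C.{u, w} := t_R2C all_ABI all_WLM all_IDL all_INV
theorem all_LFT : S_LFT.{u, w} := t_LFT Pool.Agent.SUR.t_LIK
theorem all_SUM2 : S_SUM2.{u, w} := t_SUM2 all_FUG all_FUG all_R2C all_LFT t_FS2 t_CHI
theorem all_NUM2 : S_NUM2.{u, v} := t_NUM2 all_SUM2 all_RHO t_RES t_RES t_RCM all_TRV t_TRA t_CWR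
theorem all_FNS3 : S_FNS3.{u, v} := t_FNS3 all_NUM2 t_TR2 all_GEN2 t_LPF t_TKA
/-- **T1**, second form -/
theorem all_FIN3 : S_FIN3.{u, v} := t_FIN3 all_FNS3 t_COL

theorem all_LCORE : Pool.Agent.SUR.s_LCORE.{u, v} :=
  Pool.Agent.SUR.t_LCORE Pool.Agent.SUR.t_LMSUM Pool.Agent.SUR.t_LKERW Pool.Agent.SUR.t_LKERD
    Pool.Agent.SUR.t_LALT Pool.Agent.SUR.t_LEDG

theorem all_REP : S_REP.{u} :=
  t_REP (Pool.Agent.SUR.t_LEUL Pool.Agent.SUR.t_LMSUM Pool.Agent.SUR.t_LKERW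
    Pool.Agent.SUR.t_LKERD) Pool.Agent.SUR.t_LMONO all_LCORE all_LCORE Pool.Agent.SUR.t_LPSH
    Pool.Agent.SUR.t_LPOW Pool.Agent.SUR.t_LALG (Pool.Agent.SUR.t_LEIG
      (Pool.Agent.SUR.t_VALG Pool.Agent.SUR.t_VALF Pool.Agent.SUR.t_NFH Pool.Agent.SUR.t_LCO))

theorem all_CLS : S_CLS.{u, v} := t_CLS t_LNR Pool.Agent.SUR.t_NNF
theorem all_COH : S_COH.{u, v} :=
  t_COH (Pool.Agent.SUR.t_LCOH Pool.Agent.SUR.t_LCUP Pool.Agent.SUR.t_LCBR)

theorem zw_of_ceul {G : Type u} [Group G] {Q : Type v} [Group Q] (π : G →* Q) (h : CEul π) :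
    ∃ r : ℕ, ZW π r := by
  obtain ⟨F, _, S, n, hS, hn, hG⟩ := h
  exact ⟨n * n + n + 2, fun g hg => all_REP F S hS n (orderOf (π g)) hn g (hG g hg)⟩

theorem lzw_of_lce {G : Type u} [Group G] {Q : Type v} [Group Q] (π : G →* Q) (h : LCE π) :
    LZW π := by
  intro G0 hG0
  obtain ⟨G1, hle, hG1⟩ := h G0 hG0
  exact ⟨G1, hle, zw_of_ceul _ hG1⟩

/-- The theorem for one homomorphism with `ZW`. -/
theorem fin_zw {G : Type u} [Group G] {Q : Type v} [Group Q] [Finite Q] (π : G →* Q) (r : ℕ)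
    (hZ : ZW π r) (x : KNegOne (MonoidAlgebra ℤ G)) :
    ∃ (n : ℕ) (s : Src G), 0 < n ∧ n • Kg π x = Kg π (asm G s) := by
  obtain ⟨n, s, hn, hs⟩ := all_FNS3 π.rangeRestrict π.rangeRestrict_surjective r
    (FIN3.zw_range _ r hZ) x
  have hcomp : ∀ y : KNegOne (MonoidAlgebra ℤ G),
      Kg π.range.subtype (Kg π.rangeRestrict y) = Kg π y := by
    intro y
    rw [Kg_comp]
    rfl
  exact ⟨n, s, hn, by rw [← hcomp, ← hcomp, ← map_nsmul, hs]⟩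

end Pool.Agent.SM2
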