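import Pool.Agent.SM2.St2
import Pool.Agent.SM1.Named

/-!
# MP_e40716_gt (T1, second form): named conditions and conclusions
-/

set_option autoImplicit false

open Pool.Agent.Lib25 Pool.Agent.KM Pool.Agent.SM1

namespace Pool.Agent.SM2

universe u v

/-- All entries of the elements of `G ≤ GL_n F` are in `R`. -/
def EntriesIn {F : Type u} [Field F] {n : ℕ} (R : Subring F) (G : Subgroup (GL (Fin n) F)) : Prop :=
  ∀ g ∈ G, ∀ i j, (g : Matrix (Fin n) (Fin n) F) i j ∈ R

/-- For every `x ∈ K_{-1}(ℤ[G])` there is an `M > 0` such that for all finite groups `Q` of order prime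
to `M` and all `π : G → Q` there are `n > 0` and `s ∈ Src G` such that `n x` and `asm s` have the same
image in `K_{-1}(ℤ[Q])`. -/
def SurjSeenPrime (G : Type u) [Group G] : Prop :=
  ∀ x : KNegOne (MonoidAlgebra ℤ G), ∃ M : ℕ, 0 < M ∧ ∀ (Q : Type v) [Group Q] [Finite Q]
    (π : G →* Q), M.Coprime (Nat.card Q) → ∃ (n : ℕ) (s : Src G), 0 < n ∧
      Kg π (n • x) = Kg π (asm G s)

end Pool.Agent.SM2
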