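import Pool.Agent.SM1.St3
import Pool.Agent.SUR.StE
import Pool.Agent.SUR.Bil

/-!
# MP_e40716_gt (T1, second form): weights of bounded degree on words: definitions

* `LM 𝔐` : the Laurent polynomials over `ℤ[𝔐]`, `𝔐` a monoid (here: words in the elements of a group).
* `mdh θ`, `cgmM f θ` : the ring homomorphisms `ℤ[𝔐] → ℤ[𝔑]`, `ℤ[𝔐] → B[G]`.
* `InI θ r m X` : all coefficients of the matrix `X` are in `IK θ (r + 1) + m ℤ[𝔐]`.
* `WM W`, `kapM W E` : the bilinear form and the weighted trace of `W : 𝔐 → 𝔐 → A`.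
* `CW M r c`, `CG M r g` : there is a weight of degree at most `r` at the central element `c` (words in
  the elements of `Z`), at the class of `g` (words in the elements of `G`), with values in `ℤ[1/M]`, with
  a nonzero constant.
-/

set_option autoImplicit false
set_option linter.unusedSectionVars false

open Matrix Pool.Agent.Lib25 Pool.Agent.KM Pool.Agent.SM1
open Pool.Agent.SUR (ZM bil bilHom th Cub altS IK DegV IsWtA WtAtA)

noncomputable section

namespace Pool.Agent.SM2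

universe u v w

/-- The Laurent polynomials over the monoid ring `ℤ[𝔐]`. -/
abbrev LM (𝔐 : Type*) [Monoid 𝔐] : Type _ := LaurentPolynomial (MonoidAlgebra ℤ 𝔐)

section Maps

variable {𝔐 𝔑 : Type*} [Monoid 𝔐] [Monoid 𝔑] {B : Type*} [CommRing B]

/-- The ring homomorphism `ℤ[𝔐] → ℤ[𝔑]`. -/
abbrev mdh (θ : 𝔐 →* 𝔑) : MonoidAlgebra ℤ 𝔐 →+* MonoidAlgebra ℤ 𝔑 :=
  MonoidAlgebra.mapDomainRingHom ℤ θ

theorem mdh_single (θ : 𝔐 →* 𝔑) (a : 𝔐) (n : ℤ) :
    mdh θ (MonoidAlgebra.single a n) = MonoidAlgebra.single (θ a) n := by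
  change MonoidAlgebra.mapDomain _ _ = _
  rw [MonoidAlgebra.mapDomain_single]

/-- The ring homomorphism `ℤ[𝔐] → B[𝔑]`. -/
def cgmM (f : ℤ →+* B) (θ : 𝔐 →* 𝔑) : MonoidAlgebra ℤ 𝔐 →+* MonoidAlgebra B 𝔑 :=
  (MonoidAlgebra.mapDomainRingHom B θ).comp (MonoidAlgebra.mapRingHom 𝔐 f)

theorem cgmM_single (f : ℤ →+* B) (θ : 𝔐 →* 𝔑) (a : 𝔐) (n : ℤ) :
    cgmM f θ (MonoidAlgebra.single a n) = MonoidAlgebra.single (θ a) (f n) := by
  unfold cgmM
  rw [RingHom.comp_apply, MonoidAlgebra.mapRingHom_single]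
  change MonoidAlgebra.mapDomain _ _ = _
  rw [MonoidAlgebra.mapDomain_single]

end Maps

section Ideal

variable {𝔐 𝔑 : Type*} [Monoid 𝔐] [Monoid 𝔑] {ι κ : Type*}

/-- All coefficients of the matrix are in `IK θ K`. -/
def InK (θ : 𝔐 →* 𝔑) (K : ℕ) (X : Matrix ι κ (LM 𝔐)) : Prop :=
  ∀ i j (n : ℤ), (X i j).coeff n ∈ IK θ K

/-- All coefficients of the matrix are in `IK θ (r + 1) + m ℤ[𝔐]`. -/
def InI (θ : 𝔐 →* 𝔑) (r m : ℕ) (X : Matrix ι κ (LM 𝔐)) : Prop :=
  ∃ Y Z : Matrix ι κ (LM 𝔐), InK θ (r + 1) Y ∧ X = Y + m • Z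

end Ideal

section Weight

variable {𝔐 : Type u} [Monoid 𝔐] {A : Type v} [AddCommGroup A]

/-- The coefficient of `t ^ n`. -/
def cfM (n : ℤ) : LM 𝔐 →+ MonoidAlgebra ℤ 𝔐 where
  toFun x := x.coeff n
  map_zero' := by simp
  map_add' _ _ := by simp

theorem cfM_single (n m : ℤ) (a : MonoidAlgebra ℤ 𝔐) :
    cfM n (AddMonoidAlgebra.single m a : LM 𝔐) = if m = n then a else 0 := by
  change (AddMonoidAlgebra.single m a).coeff n = _
  rw [AddMonoidAlgebra.coeff_single, Finsupp.single_apply]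

/-- The coefficient of `t ^ 0` of the bilinear form of `W` on `ℤ[𝔐][t,t⁻¹]`. -/
def WM (W : 𝔐 → 𝔐 → A) : LM 𝔐 →+ LM 𝔐 →+ A :=
  (Finsupp.liftAddHom (fun n : ℤ => (AddMonoidHom.compHom' (cfM (-n))).comp (bilHom W))).comp
    (AddMonoidAlgebra.coeffAddEquiv (R := MonoidAlgebra ℤ 𝔐) (M := ℤ)).toAddMonoidHom

theorem WM_single (W : 𝔐 → 𝔐 → A) (n m : ℤ) (a b : MonoidAlgebra ℤ 𝔐) :
    WM W (AddMonoidAlgebra.single n a) (AddMonoidAlgebra.single m b) =
      if n + m = 0 then bil W a b else 0 := by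
  simp only [WM, AddMonoidHom.comp_apply]
  have : (AddMonoidAlgebra.coeffAddEquiv (R := MonoidAlgebra ℤ 𝔐) (M := ℤ)).toAddMonoidHom
      (AddMonoidAlgebra.single n a) = Finsupp.single n a := rfl
  rw [this, Finsupp.liftAddHom_apply_single, AddMonoidHom.comp_apply,
    AddMonoidHom.compHom'_apply_apply]
  change bil W a (cfM (-n) (AddMonoidAlgebra.single m b)) = _
  rw [cfM_single]
  by_cases h : n + m = 0
  · rw [if_pos h, if_pos (by omega)]
  · rw [if_neg h, if_neg (by omega), Pool.Agent.SUR.bil_zero_right]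

/-- The weighted trace `tr(E [δE, DE])` of a matrix over `ℤ[𝔐][t,t⁻¹]`. -/
def kapM (W : 𝔐 → 𝔐 → A) {ι : Type*} [Fintype ι] (E : Matrix ι ι (LM 𝔐)) : A :=
  ∑ i, ∑ j, WM W ((E.map DL * E - E * E.map DL) i j) (E j i)

end Weight

section Words

variable {G : Type u} [Group G] {ι : Type w} [Fintype ι] [DecidableEq ι]

/-- The class of the product of a word. -/
def clG (a : FreeMonoid G) : ConjClasses G := ConjClasses.mk (th G a)

/-- `W` is a weight at the class of `g` with the constant `v`, of degree at most `r`. -/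
def WtG {A : Type*} [AddCommGroup A] (r : ℕ) (g : G) (v : A) (W : FreeMonoid G → FreeMonoid G → A) :
    Prop :=
  WtAtA clG (ConjClasses.mk g) v W ∧ DegV (th G) r W

/-- A weight at the class of `g` with values in `ℤ[1/M]` and a nonzero constant. -/
def CG (M r : ℕ) (g : G) : Prop :=
  ∃ (v : ZM M) (W : FreeMonoid G → FreeMonoid G → ZM M), v ≠ 0 ∧ WtG r g v W

/-- A weight at the central element `c` with values in `ℤ[1/M]` and a nonzero constant. -/
def CW (M r : ℕ) {Z : Type u} [Group Z] (c : Z) : Prop :=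
  ∃ (v : ZM M) (W : FreeMonoid Z → FreeMonoid Z → ZM M), v ≠ 0 ∧ WtAtA (th Z) c v W ∧
    DegV (th Z) r W

/-- The element `g` of its centraliser. -/
abbrev cel (g : G) : Subgroup.centralizer {g} :=
  ⟨g, Subgroup.mem_centralizer_singleton_iff.2 rfl⟩

/-- `X` lifts `E` to words, idempotent modulo `IK (r + 1)`. -/
def LfE (r : ℕ) (E : Matrix ι ι (LG ℤ G)) (X : Matrix ι ι (LM (FreeMonoid G))) : Prop :=
  X.map (mapL (mdh (th G))) = E ∧ InK (th G) (r + 1) (X * X - X)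

/-- `𝔐 × C_p → G × C_p` -/
abbrev thp (G : Type u) [Group G] (p : ℕ) : FreeMonoid G × Cy p →* G × Cy p :=
  (th G).prodMap (MonoidHom.id (Cy p))

/-- `a ↦ (a, 1)` -/
abbrev e0 (p : ℕ) (X : Matrix ι ι (LM (FreeMonoid G))) : Matrix ι ι (LM (FreeMonoid G × Cy p)) :=
  X.map (mapL (mdh (MonoidHom.inl (FreeMonoid G) (Cy p))))

/-- `a ↦ (a, q a)` -/
abbrev e1 {p : ℕ} (q : G →* Cy p) (X : Matrix ι ι (LM (FreeMonoid G))) :
    Matrix ι ι (LM (FreeMonoid G × Cy p)) :=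
  X.map (mapL (mdh ((MonoidHom.id (FreeMonoid G)).prod (q.comp (th G)))))

/-- `θ = e₁ e₀ + (1 - e₁)(1 - e₀)` -/
def thM {p : ℕ} (q : G →* Cy p) (X : Matrix ι ι (LM (FreeMonoid G))) :
    Matrix ι ι (LM (FreeMonoid G × Cy p)) :=
  e1 q X * e0 p X + (1 - e1 q X) * (1 - e0 p X)

end Words

end Pool.Agent.SM2
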