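import Pool.Agent.SM2.P_LNR
import Pool.Agent.SM2.P_CLS

/-!
# SM2: embeddings in general linear groups over rings detected by additive maps to `ℤ`
-/

set_option autoImplicit false

open Matrix Pool.Agent.Lib25 Pool.Agent.KM Pool.Agent.SM1

noncomputable section

namespace Pool.Agent.SM2

universe u v

open Pool.Agent.SUR.LLINx in
theorem lnr_inj {F : Type u} [Field F] {n : ℕ} (R : Subring F) {G : Type u} [Group G]
    (ρ : G →* GL (Fin n) F) (hρ : Function.Injective ρ)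
    (hR : ∀ g i j, (ρ g : Matrix (Fin n) (Fin n) F) i j ∈ R) (G₁ : Subgroup G) (hG₁ : G₁.FG) :
    ∃ S : Set F, S.Finite ∧ S ⊆ R ∧ ∀ g : G₁, ¬IsOfFinOrder g →
      ∃ ρ : Subgroup.centralizer {g} →* Matrix (Fin n) (Fin n) (Subring.closure S),
        ¬IsOfFinOrder (ρ (cel g)) := by
  obtain ⟨T, hT⟩ := hG₁
  let S : Set F := ⋃ a ∈ T, ents (ρ a)
  have hS : S.Finite := T.finite_toSet.biUnion fun a _ => ents_finite _
  have hSR : S ⊆ R := by
    intro x hx
    obtain ⟨a, ha, hxa⟩ := Set.mem_iUnion₂.1 hx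
    rcases hxa with ⟨ij, rfl⟩ | ⟨ij, rfl⟩
    · exact hR a ij.1 ij.2
    · have h1 : (ρ a)⁻¹ = ρ a⁻¹ := (map_inv ρ a).symm
      simp only [h1]
      exact hR a⁻¹ ij.1 ij.2
  let φ : G₁ →* GL (Fin n) F := ρ.comp G₁.subtype
  have hφ : Function.Injective φ := fun x y h => Subtype.ext (hρ h)
  have hle : G₁ ≤ (HR n (Subring.closure S)).comap ρ := by
    rw [← hT, Subgroup.closure_le]
    intro a ha i j
    have hsub : ents (ρ a) ⊆ S := fun x hx => Set.mem_biUnion ha hx
    exact ⟨Subring.subset_closure (hsub (Or.inl ⟨(i, j), rfl⟩)),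
      Subring.subset_closure (hsub (Or.inr ⟨(i, j), rfl⟩))⟩
  have hmem : ∀ x : G₁, φ x ∈ HR n (Subring.closure S) := fun x => hle x.2
  refine ⟨S, hS, hSR, fun g hg => ?_⟩
  refine ⟨(toM (Subring.closure S) φ hmem).comp (Subgroup.centralizer {g}).subtype, fun h => hg ?_⟩
  obtain ⟨k, hk, hk1⟩ := isOfFinOrder_iff_pow_eq_one.1 h
  refine isOfFinOrder_iff_pow_eq_one.2 ⟨k, hk, toM_injective _ φ hmem hφ ?_⟩
  rw [map_pow, map_one]
  exact hk1

theorem lce_inj {F : Type u} [Field F] {n : ℕ} (R : Subring F) {G : Type u} [Group G]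
    (ρ : G →* GL (Fin n) F) (hρ : Function.Injective ρ)
    (hR : ∀ g i j, (ρ g : Matrix (Fin n) (Fin n) F) i j ∈ R) (hD : CharZero F → DetZ R)
    {Q : Type v} [Group Q] (π : G →* Q) : LCE π := by
  intro G0 hG0
  obtain ⟨S, hS, hSR, h⟩ := lnr_inj R ρ hρ hR G0 hG0
  exact ⟨G0, le_rfl, CLS.ceul S hS h _ fun hc g => CLS.addH (hD hc) hSR _⟩

/-- Subgroups of `GL_n(ℤ[t_i, i ∈ σ])`. -/
theorem lce_poly (σ : Type u) (n : ℕ) (G : Subgroup (GL (Fin n) (MvPolynomial σ ℤ)))
    {Q : Type v} [Group Q] (π : G →* Q) : LCE π := by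
  let F := FractionRing (MvPolynomial σ ℤ)
  let f : MvPolynomial σ ℤ →+* F := algebraMap (MvPolynomial σ ℤ) F
  have hf : Function.Injective f := IsFractionRing.injective (MvPolynomial σ ℤ) F
  let ρ : G →* GL (Fin n) F := (Matrix.GeneralLinearGroup.map f).comp G.subtype
  have hρ : Function.Injective ρ := by
    intro a b h
    apply Subtype.ext
    apply Units.ext
    apply Matrix.ext
    intro i j
    apply hf
    have h1 := congrArg (fun x : GL (Fin n) F => (x : Matrix (Fin n) (Fin n) F) i j) h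
    exact h1
  refine lce_inj f.range ρ hρ (fun g i j => ⟨_, rfl⟩) (fun _ => ?_) π
  rintro ⟨_, a, rfl⟩ ha
  have ha0 : a ≠ 0 := by
    rintro rfl
    exact ha (Subtype.ext (map_zero f))
  obtain ⟨d, hd⟩ := MvPolynomial.ne_zero_iff.1 ha0
  let e : MvPolynomial σ ℤ ≃+ f.range :=
    AddEquiv.ofBijective f.rangeRestrict.toAddMonoidHom
      ⟨fun x y h => hf (congrArg Subtype.val h), fun y => by
        obtain ⟨_, a, rfl⟩ := y
        exact ⟨a, rfl⟩⟩
  let ψ : MvPolynomial σ ℤ →+ ℤ :=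
    { toFun := fun x => x.coeff d
      map_zero' := MvPolynomial.coeff_zero d
      map_add' := fun x y => MvPolynomial.coeff_add d x y }
  refine ⟨ψ.comp e.symm.toAddMonoidHom, ?_⟩
  have h1 : e.symm ⟨f a, a, rfl⟩ = a := by
    rw [AddEquiv.symm_apply_eq]
    rfl
  change MvPolynomial.coeff d (e.symm ⟨f a, a, rfl⟩) ≠ 0
  rw [h1]
  exact hd

/-- Linear groups in positive characteristic. -/
theorem lce_char {F : Type u} [Field F] (p : ℕ) (hp : p ≠ 0) [CharP F p] (n : ℕ)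
    (G : Subgroup (GL (Fin n) F)) {Q : Type v} [Group Q] (π : G →* Q) : LCE π := by
  refine lce_inj ⊤ G.subtype G.subtype_injective (fun _ _ _ => Subring.mem_top _) (fun hc => ?_) π
  exfalso
  have h0 : CharP F 0 := CharP.ofCharZero F
  have h1 : CharP F p := by assumption
  exact hp (CharP.eq F h1 h0)

end Pool.Agent.SM2
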