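import Pool.Agent.SM1.All

/-!
# SM2: the source of the assembly map of a torsion free group is a torsion group
-/

set_option autoImplicit false

open Matrix Pool.Agent.Lib25 Pool.Agent.KM Pool.Agent.SM1

noncomputable section

namespace Pool.Agent.SM2

universe u v

theorem src_tors {G : Type u} [Group G] (htf : ∀ g : G, IsOfFinOrder g → g = 1) (s : Src G) :
    ∃ m : ℕ, 0 < m ∧ m • s = 0 := by
  have h : QuotientAddGroup.mk' (AddCommGroup.torsion (Src G)) =
      (0 : Src G →+ Src G ⧸ AddCommGroup.torsion (Src G)) := by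
    apply Src.hom_ext
    intro H x
    have hfin := H.2
    have hsub : Subsingleton H.1 := by
      refine ⟨fun a b => ?_⟩
      have h1 : ∀ a : H.1, a = 1 := by
        intro a
        apply Subtype.ext
        apply htf
        exact H.1.subtype.isOfFinOrder (isOfFinOrder_of_finite a)
      rw [h1 a, h1 b]
    obtain ⟨m, hm, hz⟩ := TOR.triv all_TFI all_TAV H.1 x
    refine (QuotientAddGroup.eq_zero_iff _).2 ?_
    refine isOfFinAddOrder_iff_nsmul_eq_zero.2 ⟨m, hm, ?_⟩
    rw [← map_nsmul, hz, map_zero]
  have h1 : s ∈ AddCommGroup.torsion (Src G) :=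
    (QuotientAddGroup.eq_zero_iff s).1 (DFunLike.congr_fun h s)
  exact isOfFinAddOrder_iff_nsmul_eq_zero.1 h1

end Pool.Agent.SM2
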