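import Pool.Agent.SM2.All
import Pool.Agent.SM2.Cond
import Pool.Agent.SM2.TorsSrc
import Pool.Agent.SM2.Lin

/-!
# MP_e40716_gt (T1, second form): the clauses of the theorem
-/

set_option autoImplicit false

open Pool.Agent.Lib25 Pool.Agent.KM Pool.Agent.SM1
open Pool.Agent.SUR (ZM)

namespace Pool.Agent.SM2

universe u v

theorem m_surj {G : Type u} {Q : Type v} [Group G] [Group Q] [Finite Q] (π : G →* Q)
    (hπ : LCE π) : SurjSeen π := by
  intro x
  obtain ⟨n, s, hn, hs⟩ := all_FIN3 π (lzw_of_lce π hπ) x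
  exact ⟨n, s, hn, by rw [map_nsmul]; exact hs⟩

theorem m_tors {G : Type u} {Q : Type v} [Group G] [Group Q] [Finite Q] (π : G →* Q)
    (hπ : LCE π) (htf : ∀ g : G, IsOfFinOrder g → g = 1) : TorsImage π := by
  intro x
  obtain ⟨n, s, hn, hs⟩ := m_surj π hπ x
  obtain ⟨m, hm, h0⟩ := src_tors htf s
  refine ⟨m * n, Nat.mul_pos hm hn, ?_⟩
  rw [mul_smul, ← map_nsmul, hs, ← map_nsmul, ← map_nsmul, h0, map_zero, map_zero]

/-- Homomorphisms from centralisers to `ℤ`. -/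
theorem lce_of_lz {G : Type u} [Group G] {Q : Type v} [Group Q] (π : G →* Q) (h : LZ π) :
    LCE π := by
  intro G0 hG0
  obtain ⟨G1, hle, hG1⟩ := h G0 hG0
  exact ⟨G1, hle, t_HOM _ hG1⟩

theorem AddH.mono {F : Type u} [Field F] {R : Subring F} {S : Set F} (hS : S ⊆ R) {N N' : ℕ}
    (hN : N' ∣ N) (h : AddH R N) : AddH (Subring.closure S) N' := by
  intro a ha
  have hle : Subring.closure S ≤ R := Subring.closure_le.2 hS
  obtain ⟨M, ψ, hM, hMN, hψ⟩ := h (Subring.inclusion hle a) (fun h => ha (by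
    have h3 : ((Subring.inclusion hle a : R) : F) = 0 := by
      rw [h]
      rfl
    exact Subtype.ext h3))
  exact ⟨M, ψ.comp (Subring.inclusion hle).toAddMonoidHom, hM, hMN.coprime_dvd_right hN, hψ⟩

/-- Linear groups. -/
theorem lce_linear {F : Type u} [Field F] {n : ℕ} (R : Subring F) (G : Subgroup (GL (Fin n) F))
    (hG : EntriesIn R G) {Q : Type v} [Group Q] [Finite Q] (hR : CharZero F → AddH R (Nat.card Q))
    (π : G →* Q) : LCE π := by
  intro G0 hG0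
  refine ⟨G0, le_rfl, ?_⟩
  obtain ⟨S, hS, hSR, hρ⟩ := t_LNR F n R G hG G0 hG0
  exact CLS.ceul S hS hρ _ fun h g => (hR h).mono hSR (orderOf_dvd_natCard _)

/-- All linear groups. -/
theorem m_prime {F : Type u} [Field F] {n : ℕ} (G : Subgroup (GL (Fin n) F)) :
    SurjSeenPrime.{u, v} G := by
  intro x
  obtain ⟨G0, hG0, h⟩ := t_COL x
  obtain ⟨x0, hx0⟩ := h G0 le_rfl
  obtain ⟨M, hM, hQ⟩ := all_CLS.2 F n G G0 hG0
  refine ⟨M, hM, fun Q _ _ π hMQ => ?_⟩
  obtain ⟨r, hZ⟩ := zw_of_ceul _ (hQ Q (π.comp G0.subtype) hMQ)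
  obtain ⟨m, s, hm, hs⟩ := fin_zw (π.comp G0.subtype) r hZ x0
  obtain ⟨t, ht⟩ := FIN2.asm_sub G0 s
  refine ⟨m, t, hm, ?_⟩
  rw [map_nsmul, ht, ← hx0, Kg_comp, Kg_comp]
  exact hs

/-- Vanishing cohomology. -/
theorem lce_coh {G : Type u} [Group G] {Q : Type v} [Group Q] [Finite Q] (π : G →* Q)
    (h : ∀ G0 : Subgroup G, G0.FG →
      CCoh (Nat.card Q) (fun g : G0 => NoFin (π.comp G0.subtype) (π g))) : LCE π :=
  fun G0 hG0 => ⟨G0, le_rfl, all_COH (π.comp G0.subtype) (Nat.card Q)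
    (fun h => orderOf_dvd_natCard h) (h G0 hG0)⟩

/-- Groups acting on spaces with walls. -/
theorem lce_walls (G V : Type u) [Group G] [MulAction G V] (ℋ : Set (Set V)) (h0 : Nonempty V)
    (h : Walls G V ℋ) {Q : Type v} [Group Q] (π : G →* Q) : LCE π :=
  lce_of_lz π (n_walls G V ℋ h0 h π)

end Pool.Agent.SM2
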