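import Pool.Agent.SM2.St

/-!
# MP_e40716_gt (T1, second form): module R2C

The weight identity for `rg` with weights on words: proof of `S_R2C`.
-/

set_option autoImplicit false
set_option linter.unusedSectionVars false

open Matrix Pool.Agent.Lib25 Pool.Agent.KM Pool.Agent.SM1
open Pool.Agent.SUR (ZM bil bilHom Cub altS IK DegV IsWtA WtAtA)

noncomputable section

namespace Pool.Agent.SM2

universe u v w

namespace R2C

/-- Compatibility of the bilinear forms with a homomorphism of monoids. -/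
theorem WM_compat {𝔐 : Type u} {𝔑 : Type v} [Monoid 𝔐] [Monoid 𝔑] {A B : Type*} [AddCommGroup A]
    [AddCommGroup B] (l : 𝔐 →* 𝔑) (χ : A →+ B) (W1 : 𝔐 → 𝔐 → A) (W2 : 𝔑 → 𝔑 → B)
    (hW : ∀ x y, W2 (l x) (l y) = χ (W1 x y)) (x y : LM 𝔐) :
    WM W2 (mapL (mdh l) x) (mapL (mdh l) y) = χ (WM W1 x y) := by
  induction x using AddMonoidAlgebra.induction_linear with
  | zero => simp
  | add a b ha hb =>
    simp only [map_add, AddMonoidHom.add_apply, ha, hb]
  | single k a =>
    induction y using AddMonoidAlgebra.induction_linear with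
    | zero => simp
    | add a b ha hb => simp only [map_add, ha, hb]
    | single m b =>
      rw [mapL_single, mapL_single, WM_single, WM_single]
      by_cases h : k + m = 0
      · rw [if_pos h, if_pos h]
        induction a using MonoidAlgebra.induction_linear with
        | zero => rw [map_zero, Pool.Agent.SUR.bil_zero_left, Pool.Agent.SUR.bil_zero_left, map_zero]
        | add a b ha hb =>
          rw [map_add, Pool.Agent.SUR.bil_add_left, Pool.Agent.SUR.bil_add_left, ha, hb, map_add]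
        | single x r =>
          induction b using MonoidAlgebra.induction_linear with
          | zero =>
            rw [map_zero, Pool.Agent.SUR.bil_zero_right, Pool.Agent.SUR.bil_zero_right, map_zero]
          | add a b ha hb =>
            rw [map_add, Pool.Agent.SUR.bil_add_right, Pool.Agent.SUR.bil_add_right, ha, hb, map_add]
          | single y s =>
            rw [mdh_single, mdh_single, Pool.Agent.SUR.bil_single, Pool.Agent.SUR.bil_single, hW,
              map_zsmul]
      · rw [if_neg h, if_neg h, map_zero]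

section Conj

variable {G : Type u} [Group G]

theorem isConj_prod {p : ℕ} (q : G →* Cy p) (g : G) (x : G × Cy p) :
    IsConj x (g, q g) ↔ IsConj x.1 g ∧ x.2 = q g := by
  rw [isConj_iff, isConj_iff]
  constructor
  · rintro ⟨c, hc⟩
    have h1 : c.1 * x.1 * c.1⁻¹ = g := congrArg Prod.fst hc
    have h2 : c.2 * x.2 * c.2⁻¹ = q g := congrArg Prod.snd hc
    refine ⟨⟨c.1, h1⟩, ?_⟩
    rw [← h2, mul_comm c.2 x.2, mul_inv_cancel_right]
  · rintro ⟨⟨c, hc⟩, h2⟩
    refine ⟨(c, 1), Prod.ext hc ?_⟩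
    change (1 : Cy p) * x.2 * (1 : Cy p)⁻¹ = q g
    rw [one_mul, inv_one, mul_one, h2]

theorem q_isConj {p : ℕ} (q : G →* Cy p) (g x : G) (h : IsConj x g) : q x = q g := by
  obtain ⟨c, hc⟩ := isConj_iff.1 h
  rw [← hc, map_mul, map_mul, map_inv, mul_comm (q c) (q x), mul_inv_cancel_right]

end Conj

section Weight

variable {G : Type u} [Group G] {A : Type*} [AddCommGroup A]

open scoped Classical in
/-- The weight on `𝔐 × C_p`. -/
def W' {p : ℕ} (q : G →* Cy p) (g : G) (W : FreeMonoid G → FreeMonoid G → A)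
    (x y : FreeMonoid G × Cy p) : A :=
  if x.2 * y.2 = q g then W x.1 y.1 else 0

theorem thp_fst {p : ℕ} (x : FreeMonoid G × Cy p) : (thp G p x).1 = Pool.Agent.SUR.th G x.1 := rfl

theorem thp_snd {p : ℕ} (x : FreeMonoid G × Cy p) : (thp G p x).2 = x.2 := rfl

theorem cl_iff {p : ℕ} (q : G →* Cy p) (g : G) (x : FreeMonoid G × Cy p) :
    ConjClasses.mk (thp G p x) = ConjClasses.mk (g, q g) ↔
      clG x.1 = ConjClasses.mk g ∧ x.2 = q g := by
  rw [ConjClasses.mk_eq_mk_iff_isConj, isConj_prod]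
  unfold clG
  rw [ConjClasses.mk_eq_mk_iff_isConj]
  rfl

theorem wt_W' {p : ℕ} (q : G →* Cy p) (g : G) (v : A) (W : FreeMonoid G → FreeMonoid G → A)
    (hW : WtAtA clG (ConjClasses.mk g) v W) :
    WtAtA (fun a => ConjClasses.mk (thp G p a)) (ConjClasses.mk (g, q g)) v (W' q g W) := by
  obtain ⟨hcyc, hoff, hone⟩ := hW
  refine ⟨fun x y z => ?_, fun x y h => ?_, fun x h => ?_⟩
  · unfold W'
    simp only [Prod.snd_mul, Prod.fst_mul]
    have e1 : x.2 * (y.2 * z.2) = x.2 * y.2 * z.2 := (mul_assoc _ _ _).symm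
    have e2 : z.2 * x.2 * y.2 = x.2 * y.2 * z.2 := by
      rw [mul_assoc, mul_comm]
    rw [e1, e2]
    by_cases h : x.2 * y.2 * z.2 = q g
    · rw [if_pos h, if_pos h, if_pos h]
      exact hcyc _ _ _
    · rw [if_neg h, if_neg h, if_neg h, add_zero]
  · unfold W' at h
    by_cases h2 : x.2 * y.2 = q g
    · rw [if_pos h2] at h
      exact (cl_iff q g (x * y)).2 ⟨hoff _ _ h, h2⟩
    · exact absurd (if_neg h2) h
  · obtain ⟨h1, h2⟩ := (cl_iff q g x).1 h
    unfold W'
    rw [if_pos (by rw [← h2]; exact one_mul _)]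
    exact hone _ h1

theorem cub_fst {p : ℕ} {S : Type*} {c : (S → Bool) → FreeMonoid G × Cy p}
    (hc : Cub (thp G p) c) : Cub (Pool.Agent.SUR.th G) (fun ε => (c ε).1) ∧ ∃ z, ∀ ε, (c ε).2 = z := by
  induction hc with
  | const a => exact ⟨Cub.const a.1, a.2, fun _ => rfl⟩
  | slot s a a' h =>
    refine ⟨?_, a.2, fun ε => ?_⟩
    · have h1 : Pool.Agent.SUR.th G a.1 = Pool.Agent.SUR.th G a'.1 := congrArg Prod.fst h
      have h2 := Cub.slot (θ := Pool.Agent.SUR.th G) s a.1 a'.1 h1
      have h3 : (fun ε : _ → Bool => (if ε s then a' else a).1) =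
          fun ε => if ε s then a'.1 else a.1 := by
        funext ε
        split_ifs <;> rfl
      rw [h3]
      exact h2
    · have h1 : a.2 = a'.2 := congrArg (fun z : G × Cy p => z.2) h
      change (if ε s then a' else a).2 = a.2
      split_ifs
      · exact h1.symm
      · rfl
  | mul c c' h h' ih ih' =>
    obtain ⟨h1, z, hz⟩ := ih
    obtain ⟨h2, z', hz'⟩ := ih'
    refine ⟨Cub.mul _ _ h1 h2, z * z', fun ε => ?_⟩
    rw [Prod.snd_mul, hz, hz']

theorem deg_W' {p : ℕ} (q : G →* Cy p) (g : G) (r : ℕ) (W : FreeMonoid G → FreeMonoid G → A)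
    (hW : DegV (Pool.Agent.SUR.th G) r W) : DegV (thp G p) r (W' q g W) := by
  intro c c' hc hc'
  obtain ⟨h1, z, hz⟩ := cub_fst hc
  obtain ⟨h2, z', hz'⟩ := cub_fst hc'
  unfold W'
  by_cases h : z * z' = q g
  · have h3 : (fun ε => if (c ε).2 * (c' ε).2 = q g then W (c ε).1 (c' ε).1 else 0) =
        fun ε => W (c ε).1 (c' ε).1 := by
      funext ε
      rw [hz, hz', if_pos h]
    rw [h3]
    exact hW _ _ h1 h2
  · have h3 : (fun ε => if (c ε).2 * (c' ε).2 = q g then W (c ε).1 (c' ε).1 else 0) =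
        fun _ => 0 := by
      funext ε
      rw [hz, hz', if_neg h]
    rw [h3]
    unfold altS
    exact Finset.sum_eq_zero fun _ _ => smul_zero _

theorem wt_map {B : Type*} [AddCommGroup B] (χ : A →+ B) (r : ℕ) (g : G) (v : A)
    (W : FreeMonoid G → FreeMonoid G → A) (hW : WtG r g v W) :
    WtG r g (χ v) (fun a b => χ (W a b)) := by
  obtain ⟨⟨hcyc, hoff, hone⟩, hdeg⟩ := hW
  refine ⟨⟨fun a b c => ?_, fun a b h => ?_, fun a h => ?_⟩, fun c c' hc hc' => ?_⟩
  · change χ _ = χ _ + χ _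
    rw [hcyc, map_add]
  · refine hoff a b fun h0 => h ?_
    change χ (W a b) = 0
    rw [h0, map_zero]
  · change χ _ = χ _
    rw [hone a h]
  · have := hdeg c c' hc hc'
    unfold altS at this ⊢
    rw [← map_zero χ, ← this, map_sum]
    exact Finset.sum_congr rfl fun _ _ => (map_zsmul χ _ _).symm

theorem W'_one {p : ℕ} (q : G →* Cy p) (g : G) (v : A) (W : FreeMonoid G → FreeMonoid G → A)
    (hW : WtAtA clG (ConjClasses.mk g) v W) (x y : FreeMonoid G) :
    W' q g W (((MonoidHom.id (FreeMonoid G)).prod (q.comp (Pool.Agent.SUR.th G))) x)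
      (((MonoidHom.id (FreeMonoid G)).prod (q.comp (Pool.Agent.SUR.th G))) y) = W x y := by
  unfold W'
  simp only [MonoidHom.prod_apply, MonoidHom.id_apply, MonoidHom.comp_apply]
  by_cases h : q (Pool.Agent.SUR.th G x) * q (Pool.Agent.SUR.th G y) = q g
  · rw [if_pos h]
  · rw [if_neg h]
    by_contra h1
    apply h
    have h2 := hW.2.1 x y (fun h0 => h1 h0.symm)
    unfold clG at h2
    rw [ConjClasses.mk_eq_mk_iff_isConj, map_mul] at h2
    rw [← map_mul]
    exact q_isConj q g _ h2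

theorem W'_zero {p : ℕ} (q : G →* Cy p) (g : G) (W : FreeMonoid G → FreeMonoid G → A)
    (hq : q g ≠ 1) (x y : FreeMonoid G) :
    W' q g W (MonoidHom.inl (FreeMonoid G) (Cy p) x) (MonoidHom.inl (FreeMonoid G) (Cy p) y) =
      0 := by
  unfold W'
  rw [if_neg]
  intro h
  apply hq
  rw [← h]
  exact one_mul (1 : Cy p)

end Weight

section Images

variable {G : Type u} [Group G] {p : ℕ}

theorem img (n : ℕ) (l : FreeMonoid G →* FreeMonoid G × Cy p) (f : G →* G × Cy p)
    (h : ∀ a, thp G p (l a) = f (Pool.Agent.SUR.th G a)) (x : LM (FreeMonoid G)) :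
    mapL (cgmM (Int.castRingHom (ZMod n)) (thp G p)) (mapL (mdh l) x) =
      mapL (cgm (RingHom.id (ZMod n)) f) (mapL (red n G) (mapL (mdh (Pool.Agent.SUR.th G)) x)) := by
  induction x using AddMonoidAlgebra.induction_linear with
  | zero => simp only [map_zero]
  | add a b ha hb => simp only [map_add, ha, hb]
  | single k a =>
    simp only [mapL_single]
    congr 1
    induction a using MonoidAlgebra.induction_linear with
    | zero => simp only [map_zero]
    | add a b ha hb => simp only [map_add, ha, hb]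
    | single y s =>
      unfold red
      rw [mdh_single, mdh_single, cgmM_single, cgm_single, cgm_single, h]
      rfl

end Images

section Comm

variable {𝔐 : Type u} {𝔑 : Type v} [Monoid 𝔐] [Monoid 𝔑] {ι : Type w} [Fintype ι] [DecidableEq ι]

theorem map_comm (l : 𝔐 →* 𝔑) (X : Matrix ι ι (LM 𝔐)) :
    (X.map (mapL (mdh l))).map DL * X.map (mapL (mdh l)) -
      X.map (mapL (mdh l)) * (X.map (mapL (mdh l))).map DL =
      (X.map DL * X - X * X.map DL).map (mapL (mdh l)) := by
  have h1 : (X.map (mapL (mdh l))).map DL = (X.map DL).map (mapL (mdh l)) := by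
    ext1 i j
    simp only [Matrix.map_apply, DL_mapL]
  rw [h1, ← Matrix.map_mul, ← Matrix.map_mul]
  ext1 i j
  simp only [Matrix.map_apply, Matrix.sub_apply, map_sub]

end Comm

end R2C

open R2C in
theorem t_R2C (hABI : S_ABI.{max u w, 0}) (hWLM : S_WLM.{u, w}) (hIDL : S_IDL.{u, w})
    (hINV : S_INV.{u, w}) : S_R2C.{u, w} := by
  intro G _ p K hp q g r Λ _ χ v W hW hq ι _ _ E X hX hE
  have hW1 := wt_map χ.toAddMonoidHom r g v W hW
  obtain ⟨B, hB, hcyc, hDB, hB1, hBI⟩ := hWLM (𝔐 := FreeMonoid G × Cy p) (G := G × Cy p) (thp G p)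
    (g, q g) (A := ZMod (p ^ K)) (χ v) (W' q g fun a b => χ (W a b)) r (p ^ K)
    (wt_W' q g (χ v) (fun a b => χ (W a b)) hW1.1) (deg_W' q g r (fun a b => χ (W a b)) hW1.2)
    (ZMod.natCast_self _) (ι := ι)
  obtain ⟨I, hI, hImul, hID, -, -⟩ := hIDL.1 (thp G p) r (p ^ K) (ι := ι)
  obtain ⟨hee, hcj, T, hT1, hT2⟩ := hINV (K := K) hp q r X hX.2
  have hF : ∀ x : Matrix ι ι (LM (FreeMonoid G × Cy p)), InI (thp G p) r (p ^ K) x →
      x.map (mapL (cgmM (Int.castRingHom (ZMod (p ^ K))) (thp G p))) = 0 := fun x hx =>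
    hIDL.2.2 (thp G p) r (p ^ K) (ZMod.natCast_self _) x hx
  have key := hABI (AddMonoidHom.mapMatrix DL) B I hImul hID
    (fun x hx y => hBI x y ((hI x).1 hx)) (fun x y => map_DL_mul x y) hcyc hDB (e0 p X) (e1 q X)
    (thM q X) T ((hI _).2 hee) ((hI _).2 hT1) ((hI _).2 hT2) ((hI _).2 hcj)
  simp only [AddMonoidHom.mapMatrix_apply] at key
  have i0' : (e0 p X).map (mapL (cgmM (Int.castRingHom (ZMod (p ^ K))) (thp G p))) =
      E0 p (rd (p ^ K) E) := by
    rw [← hX.1]
    ext1 i j
    exact img (p ^ K) (MonoidHom.inl _ _) (MonoidHom.inl G (Cy p)) (fun a => rfl) (X i j)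
  have i1' : (e1 q X).map (mapL (cgmM (Int.castRingHom (ZMod (p ^ K))) (thp G p))) =
      E1 q (rd (p ^ K) E) := by
    rw [← hX.1]
    ext1 i j
    exact img (p ^ K) _ ((MonoidHom.id G).prod q) (fun a => rfl) (X i j)
  have ith : (thM q X).map (mapL (cgmM (Int.castRingHom (ZMod (p ^ K))) (thp G p))) =
      SM1.th q (rd (p ^ K) E) := by
    unfold thM SM1.th
    rw [← i0', ← i1']
    change (mapL (cgmM (Int.castRingHom (ZMod (p ^ K))) (thp G p))).mapMatrix _ = _
    simp only [map_add, map_mul, map_sub, map_one, RingHom.mapMatrix_apply]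
  have hu1 : SM1.th q (rd (p ^ K) E) *
      T.map (mapL (cgmM (Int.castRingHom (ZMod (p ^ K))) (thp G p))) = 1 := by
    have h2 : (mapL (cgmM (Int.castRingHom (ZMod (p ^ K))) (thp G p))).mapMatrix
        (thM q X * T - 1) = 0 := hF _ hT1
    rw [map_sub, map_mul, map_one, sub_eq_zero] at h2
    rw [← ith]
    exact h2
  have hu2 : T.map (mapL (cgmM (Int.castRingHom (ZMod (p ^ K))) (thp G p))) *
      SM1.th q (rd (p ^ K) E) = 1 := by
    have h2 : (mapL (cgmM (Int.castRingHom (ZMod (p ^ K))) (thp G p))).mapMatrix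
        (T * thM q X - 1) = 0 := hF _ hT2
    rw [map_sub, map_mul, map_one, sub_eq_zero] at h2
    rw [← ith]
    exact h2
  have hinv : Ring.inverse (SM1.th q (rd (p ^ K) E)) =
      T.map (mapL (cgmM (Int.castRingHom (ZMod (p ^ K))) (thp G p))) :=
    Ring.inverse_unit (⟨_, _, hu1, hu2⟩ : (Matrix ι ι (LG (ZMod (p ^ K)) (G × Cy p)))ˣ)
  have hDF : ((thM q X).map DL).map (mapL (cgmM (Int.castRingHom (ZMod (p ^ K))) (thp G p))) =
      (SM1.th q (rd (p ^ K) E)).map DL := by
    rw [← ith]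
    ext1 i j
    simp only [Matrix.map_apply, DL_mapL]
  have hleft : B 1 (e0 p X * T * (thM q X).map DL) = χ v * rg q (rd (p ^ K) E) g := by
    rw [hB1, Matrix.map_mul, Matrix.map_mul, i0', hDF, ← hinv]
    rfl
  have hr1 : B ((e1 q X).map DL * e1 q X - e1 q X * (e1 q X).map DL) (e1 q X) =
      χ (kapM W X) := by
    rw [map_comm, hB]
    unfold kapM
    rw [map_sum]
    refine Finset.sum_congr rfl fun i _ => ?_
    rw [map_sum]
    exact Finset.sum_congr rfl fun j _ => WM_compat _ χ.toAddMonoidHom W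
      (W' q g fun a b => χ (W a b)) (fun x y => W'_one q g (χ v) _ hW1.1 x y) _ _
  have hr0 : B ((e0 p X).map DL * e0 p X - e0 p X * (e0 p X).map DL) (e0 p X) = 0 := by
    rw [map_comm, hB]
    refine Finset.sum_eq_zero fun i _ => Finset.sum_eq_zero fun j _ => ?_
    exact WM_compat _ (0 : Λ →+ ZMod (p ^ K)) W
      (W' q g fun a b => χ (W a b)) (fun x y => W'_zero q g _ hq x y) _ _
  rw [hleft, hr1, hr0, sub_zero] at key
  exact key

end Pool.Agent.SM2
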