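import Pool.Agent.SM2.Defs

/-!
# MP_e40716_gt (T1, second form): statements

Module `X` proves `theorem t_X (h : S_Y) ... : S_X` in `Pool/Agent/SM2/P_X.lean`, namespace
`Pool.Agent.SM2`; the hypotheses are the statements named in the doc string, nothing else. Auxiliary
lemmas in the namespace `Pool.Agent.SM2.X`. Definitions: `SM2/Defs.lean`, `SM1/Defs.lean`, `SUR/StL.lean`
(`th`, `Cub`, `IK`, `DegV`), `SUR/StA.lean` (`IsWtA`, `WtAtA`), `SUR/Bil.lean` (rules for `bil`).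
The project replaces the homomorphisms `f : Z(g) → ℤ` of SM1 by weights of bounded degree on words.
-/

set_option autoImplicit false
set_option linter.unusedSectionVars false

open Matrix Pool.Agent.Lib25 Pool.Agent.KM Pool.Agent.SM1
open Pool.Agent.SUR (ZM bil bilHom th Cub altS IK DegV IsWtA WtAtA)

noncomputable section

namespace Pool.Agent.SM2

universe u v w

/-- ABI (90 lines; hypothesis `S_ABT.{u, v}` of SM1/St.lean). The abstract weight identity modulo a two sided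
ideal `I` (given as an additive subgroup).

PROOF. Let `S' = S ⧸ I` (as a ring: `TwoSidedIdeal.mk'`, `RingCon.Quotient`; or `RingCon` from the
relation `x - y ∈ I`). `D` and `B` descend to `S'` (`B x y = 0` if `x ∈ I` or `y ∈ I`), all hypotheses of
`S_ABT` hold in `S'`, `e, θ, θ'` become an idempotent and inverse elements, and `e1 = θ e θ'` in `S'`
(`e1 θ = θ e`). -/
def S_ABI : Prop := ∀ {S : Type u} [Ring S] {V : Type v} [AddCommGroup V] (D : S →+ S)
  (B : S →+ S →+ V) (I : AddSubgroup S), (∀ x ∈ I, ∀ y, x * y ∈ I ∧ y * x ∈ I) → (∀ x ∈ I, D x ∈ I) →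
  (∀ x ∈ I, ∀ y, B x y = 0 ∧ B y x = 0) →
  (∀ x y, D (x * y) = D x * y + x * D y) → (∀ x y z, B x (y * z) = B (x * y) z + B (z * x) y) →
  (∀ x y, B (D x) y + B x (D y) = 0) → ∀ e e1 θ θ' : S, e * e - e ∈ I → θ * θ' - 1 ∈ I →
  θ' * θ - 1 ∈ I → e1 * θ - θ * e ∈ I →
  B 1 (e * θ' * D θ) = B (D e1 * e1 - e1 * D e1) e1 - B (D e * e - e * D e) e

/-- WLM (170 lines; hypothesis `s_LIK.{u}` of SUR/StL.lean). The form of a weight on matrices.

PROOF. As `t_WLP` in SM1/P_WLP.lean, with `𝔐` for `G`: `B X Y = ∑ i, ∑ j, WM W (X i j) (Y j i)`; the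
rules are additive, check them on `single n (single a 1)` (`WM_single`, `bil_single`). `B 1 x`: `W 1 a = v`
if the class of `θ a` is that of `γ`, otherwise `W 1 a = 0` (second property of `WtAtA`); so
`WM W 1 x = v * tauL γ (mapL (cgmM _ θ) x)` on singles. Ideal: `InI θ r m x` is `x = Y + m • Z`; `m • Z` gives
multiples of `m`, which are `0` in `A`; `WM W y z` for `y` with coefficients in `IK θ (r + 1)` is a sum of
`bil W (y.coeff n) (z.coeff (-n)) = 0` (`s_LIK` (3)). -/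
def S_WLM : Prop := ∀ {𝔐 G : Type u} [Monoid 𝔐] [Group G] (θ : 𝔐 →* G) (γ : G) {A : Type} [CommRing A]
  (v : A) (W : 𝔐 → 𝔐 → A) (r m : ℕ), WtAtA (fun a => ConjClasses.mk (θ a)) (ConjClasses.mk γ) v W →
  DegV θ r W → (m : A) = 0 → ∀ {ι : Type w} [Fintype ι] [DecidableEq ι],
  ∃ B : Matrix ι ι (LM 𝔐) →+ Matrix ι ι (LM 𝔐) →+ A,
    (∀ X Y, B X Y = ∑ i, ∑ j, WM W (X i j) (Y j i)) ∧
    (∀ x y z, B x (y * z) = B (x * y) z + B (z * x) y) ∧
    (∀ x y, B (x.map DL) y + B x (y.map DL) = 0) ∧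
    (∀ x, B 1 x = v * tauL γ (Matrix.trace (x.map (mapL (cgmM (Int.castRingHom A) θ))))) ∧
    (∀ x y, InI θ r m x → B x y = 0 ∧ B y x = 0)

/-- IDL (120 lines; hypothesis `s_LIK.{u}`). The sets `InI` and `InK` are two sided ideals, stable under
`D`, functorial and killed by `θ` and reduction modulo `m`.

PROOF. Coefficients of products are finite sums of products of coefficients; `s_LIK` (1). (5): a monoid
homomorphism `λ` with `θ' ∘ λ = χ ∘ θ` maps cubes to cubes (induction on `Cub`), so `IK θ K` into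
`IK θ' K`; coefficients of `mapL f x` are the `f (x.coeff n)`. (6): `s_LIK` (2) (`0 < r + 1`): `mdh θ` kills
`IK θ (r + 1)`, and `cgmM f θ = (mapRingHom _ f) ∘ mdh θ`. -/
def S_IDL : Prop :=
  (∀ {𝔐 𝔑 : Type u} [Monoid 𝔐] [Monoid 𝔑] (θ : 𝔐 →* 𝔑) (r m : ℕ) {ι : Type w} [Fintype ι]
    [DecidableEq ι], ∃ I : AddSubgroup (Matrix ι ι (LM 𝔐)), (∀ x, x ∈ I ↔ InI θ r m x) ∧
    (∀ x ∈ I, ∀ y, x * y ∈ I ∧ y * x ∈ I) ∧ (∀ x ∈ I, x.map DL ∈ I) ∧ (∀ x, InK θ (r + 1) x → x ∈ I) ∧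
    ∀ x : Matrix ι ι (LM 𝔐), m • x ∈ I) ∧
  (∀ {𝔐 𝔑 𝔐' 𝔑' : Type u} [Monoid 𝔐] [Monoid 𝔑] [Monoid 𝔐'] [Monoid 𝔑'] (θ : 𝔐 →* 𝔑)
    (θ' : 𝔐' →* 𝔑') (l : 𝔐 →* 𝔐') (χ : 𝔑 →* 𝔑'), (∀ a, θ' (l a) = χ (θ a)) → ∀ (K : ℕ)
    {ι : Type w} [Fintype ι] [DecidableEq ι] (x : Matrix ι ι (LM 𝔐)), InK θ K x →
    InK θ' K (x.map (mapL (mdh l)))) ∧
  (∀ {𝔐 𝔑 : Type u} [Monoid 𝔐] [Monoid 𝔑] (θ : 𝔐 →* 𝔑) (r m : ℕ) {A : Type} [CommRing A],
    (m : A) = 0 → ∀ {ι : Type w} [Fintype ι] [DecidableEq ι] (x : Matrix ι ι (LM 𝔐)), InI θ r m x →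
    x.map (mapL (cgmM (Int.castRingHom A) θ)) = 0)

/-- INV (200 lines; hypothesis `S_IDL.{u, w}`). The matrix `thM` is invertible modulo the ideal and conjugates
`e0` into `e1`.

PROOF. `I` = the ideal of `S_IDL` for `thp G p`, `r`, `p ^ K`. `e0 X`, `e1 X` are idempotent modulo `I`
(`S_IDL` (2) with `l = inl`, `χ = inl`, and `l = id.prod (q ∘ th)`, `χ = id.prod q`; `mapL` is a ring
homomorphism). Let `e = e0`, `f = e1`, `d = f - e`. (a) `thM - 1 = d (2 e - 1) + 2 (e e - e)`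
(`noncomm_ring`), so `thM - 1 ≡ d (2 e - 1)` modulo `I`. (b) with `u = C (single (1, c) 1 - 1)`, `c` the
generator of `C_p` (central in `LM (𝔐 × C_p)`), all entries of `d` are multiples of `u` (as in
SM1/P_DIV.lean: `single (a, c^j) 1 - single (a, 1) 1 = u * ..`), so
`(thM - 1) ^ n ≡ u ^ n • y` modulo `I`; `u ^ (p K)` is a multiple of `p ^ K` (`u ^ p` is a multiple of `p`
because `(1,c) ^ p = 1`: `add_pow_char`-like: the binomial coefficients; see SM1/P_DIV.lean), so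
`(1 - thM) ^ (p K) ∈ I`. (c) `T = ∑_{i < p K} (1 - thM) ^ i`: `thM * T - 1 = T * thM - 1 =
- (1 - thM) ^ (p K)` (`mul_neg_geom_sum`, `geom_sum_mul_neg`). (d) `f thM - thM e =
(f f - f) e + (f - f f) (1 - e) - f (e e - e) + (1 - f)(e e - e)` up to sign: a combination of elements of
`I` (`noncomm_ring`). -/
def S_INV : Prop := ∀ {G : Type u} [Group G] {p K : ℕ}, p.Prime → ∀ (q : G →* Cy p) (r : ℕ)
  {ι : Type w} [Fintype ι] [DecidableEq ι] (X : Matrix ι ι (LM (FreeMonoid G))),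
  InK (th G) (r + 1) (X * X - X) →
  InI (thp G p) r (p ^ K) (e0 p X * e0 p X - e0 p X) ∧
  InI (thp G p) r (p ^ K) (e1 q X * thM q X - thM q X * e0 p X) ∧
  ∃ T : Matrix ι ι (LM (FreeMonoid G × Cy p)),
    InI (thp G p) r (p ^ K) (thM q X * T - 1) ∧ InI (thp G p) r (p ^ K) (T * thM q X - 1)

/-- R2C (200 lines; hypotheses `S_ABI.{max u w, 0}`, `S_WLM.{u, w}`, `S_IDL.{u, w}`, `S_INV.{u, w}`). The weight
identity for `rg`.

PROOF. On `𝔐 × C_p`, `𝔐 = FreeMonoid G`, let `W' (a, c) (b, d) = χ (W a b)` if `c d = q g`, `0` otherwise: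
a weight at the class of `(g, q g)` with the constant `χ v` (`C_p` is commutative), of degree at most `r`
for `thp G p` (if `c` is a cube for `thp`, its first component is a cube for `th G` and its second component
is constant). `B` from `S_WLM`, `I` from `S_IDL`, `D = map DL`, `T` from `S_INV`; `S_ABI` with `e = e0`, `e1`,
`θ = thM`, `θ' = T`:
`B 1 (e0 T D thM) = B (D e1 e1 - e1 D e1) e1 - B (D e0 e0 - e0 D e0) e0`.
Left side: `χ v * tauL (g, q g) (trace (image))` where the image under `mapL (cgmM _ (thp G p))` of `e0`,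
`thM` is `E0 p (rd E)`, `th q (rd E)` (check on singles), and the image of `T` is the inverse (`S_IDL` (3)), so
`Ring.inverse`: this is `χ v * rg q (rd E) g`. First term on the right: `χ (kapM W X)`: on singles
`W' (a, q a) (b, q b) = χ (W a b)` because `W a b ≠ 0` implies `q (th (a b)) = q g`. The last term is `0`:
`W' (a, 1) (b, 1) = 0` as `q g ≠ 1`. -/
def S_R2C : Prop := ∀ {G : Type u} [Group G] {p K : ℕ}, p.Prime → ∀ (q : G →* Cy p) (g : G) (r : ℕ)
  {Λ : Type} [CommRing Λ] (χ : Λ →+* ZMod (p ^ K)) (v : Λ) (W : FreeMonoid G → FreeMonoid G → Λ),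
  WtG r g v W → q g ≠ 1 → ∀ {ι : Type w} [Fintype ι] [DecidableEq ι] (E : Matrix ι ι (LG ℤ G))
  (X : Matrix ι ι (LM (FreeMonoid G))), LfE r E X → E * E = E →
  χ v * rg q (rd (p ^ K) E) g = χ (kapM W X)

/-- LFT (200 lines; hypotheses `s_LIK.{u}`). Lifts of idempotent matrices to words.

PROOF. `J` = the kernel of `mdh (th G)`. (1) `J * IK K ⊆ IK (K + 1)` (this is in the proof of `t_LLIFT`,
Pool/Agent/SUR/LLIFT.lean), so the same for the coefficients of Laurent polynomials and for matrices: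
let `𝓙` = the matrices `X` with `X.map (mapL (mdh (th G))) = 0`; all coefficients are in `J`. By induction a
product of `K` elements of `𝓙` has all coefficients in `IK K` (`IK 0` contains everything: `single a 1` is the
alternating sum over the `0`-dimensional cube). (2) Let `X₀` be any lift of `E` (entrywise; `mapL (mdh θ)` is
surjective: `single n (single g a)` lifts to `single n (single (FreeMonoid.of g) a)`). `X₀ X₀ - X₀ ∈ 𝓙`.
(3) `f X = 3 X^2 - 2 X^3`: `f X` is a lift of `E`, `f X ^ 2 - f X = (X^2 - X)^2 (4 X^2 - 4 X - 3)`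
(everything commutes). By induction on `k` there is a lift `X` such that `X^2 - X = (X₀^2 - X₀)^(2^k) * Y`
with `Y` commuting with everything; take `2 ^ k ≥ r + 1`, `2^k = (r + 1) + j`:
`(X₀^2-X₀)^(r+1)` has coefficients in `IK (r+1)`, a two sided ideal. -/
def S_LFT : Prop := ∀ {G : Type u} [Group G] {ι : Type w} [Fintype ι] [DecidableEq ι]
  (E : Matrix ι ι (LG ℤ G)), E * E = E → ∀ r : ℕ, ∃ X : Matrix ι ι (LM (FreeMonoid G)), LfE r E X

/-- FS2 (60 lines; no hypotheses). `kapM W X` is `0` for almost all classes (compare SM1/P_FSU.lean). -/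
def S_FS2 : Prop := ∀ {G : Type u} [Group G] {ι : Type w} [Fintype ι] [DecidableEq ι]
  (X : Matrix ι ι (LM (FreeMonoid G))), ∃ F : Finset G, ∀ (r : ℕ) (g : G) {A : Type} [CommRing A] (v : A)
  (W : FreeMonoid G → FreeMonoid G → A), WtG r g v W → (∀ x ∈ F, ¬ IsConj x g) → kapM W X = 0

/-- CHI (60 lines; no hypotheses). The reduction `ℤ[1/M] → ℤ/p^K`.

PROOF. `p ∤ M`: `M` is a unit in `ZMod (p ^ K)`; or `t_ANEQ` (SUR/ANEQ.lean) and `PadicInt.toZModPow K`. (2) for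
`v ≠ 0` in `ZM M` there is a positive integer `m` which is a multiple of `v`: `M ^ k v = a ∈ ℤ`, `y = ± M ^ k`,
`m = |a|`. (1) if `M' ^ k x = a` in `ℚ` then `M' ^ k χ x = a`. -/
def S_CHI : Prop := ∀ M : ℕ, 0 < M →
  (∀ (p : ℕ), p.Prime → ¬ p ∣ M → ∀ K : ℕ, Nonempty (ZM M →+* ZMod (p ^ K))) ∧
  (∀ v : ZM M, v ≠ 0 → ∃ (y : ZM M) (m : ℕ), 0 < m ∧ y * v = (m : ZM M)) ∧
  ∀ v : ZM M, ∃ (k : ℕ) (a : ℤ), ((M : ZM M) ^ k) * v = (a : ZM M)

/-- SUM2 (250 lines; hypotheses `S_FUG.{u, 0, w}`, `S_FUG.{u, u, w}` of SM1, `S_R2C.{u, w}`, `S_LFT.{u, w}`,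
`S_FS2.{u, w}`, `S_CHI`). As `t_SUM` (SM1/P_SUM.lean) with weights on words.

PROOF. `X` from `S_LFT` for `E`, `r`. For `g` over `gn N` take `M_g`, `v_g`, `W_g` (`CG`), `M_g` prime to `N`, so
prime to `p`; `χ` from `S_CHI`: `χ v_g * rg = χ (kapM W_g X)` (`S_R2C`). Multiply by `χ y` and by a power of
`M_g`: with `D_g = m_g M_g ^ k > 0` and the integer `a_g = M_g ^ k y_g kapM W_g X`:
(*) `D_g * rg q (rd (p ^ K) E) g = a_g` in `ZMod (p ^ K)` for all `p ∣ N`, `K`, and `a_g = 0` if `kapM W_g X = 0`.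
From (*) on the proof is that of `t_SUM` with `D_g` for `v_g`, `a_g` for `kap W_g E`. -/
def S_SUM2 : Prop := ∀ {G : Type u} [Group G] (N : ℕ), 1 < N → ∀ (φ : G →* Cy N) (r : ℕ),
  (∀ g : G, φ g = gn N → ∃ M : ℕ, 0 < M ∧ M.Coprime N ∧ CG M r g) →
  ∀ {ι : Type w} [Fintype ι] [DecidableEq ι] (E : Matrix ι ι (LG ℤ G)), E * E = E →
  ∃ (D : ℕ) (a : ℤ), 0 < D ∧ ∀ (p K : ℕ) (hp : p.Prime) (hpN : p ∣ N),
    (D : ZMod (p ^ K)) * rg (cN N p hpN) (rd (p ^ K) (psh φ E)) (gn N) = (a : ZMod (p ^ K))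

/-- TRA (200 lines; no hypotheses; ADAPTATION of `t_LTRA`, Pool/Agent/SUR/LTRA.lean, and `StL.lean`, `s_LTRA`).
From words in the centraliser of `g` to words in `G`.

PROOF. As `LTRA` with `G` for `MM G n` and the identity for `val`: `T y u` as there,
`W' a b = W (T (th (a b)) a) (T (th (b a)) b)` if `th (a b)` is conjugate to `g`, `0` otherwise. -/
def S_TRA : Prop := ∀ {G : Type u} [Group G] {A : Type} [AddCommGroup A] (r : ℕ) (g : G) (v : A)
  (W : FreeMonoid (Subgroup.centralizer {g}) → FreeMonoid (Subgroup.centralizer {g}) → A),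
  WtAtA (th (Subgroup.centralizer {g})) (cel g) v W → DegV (th (Subgroup.centralizer {g})) r W →
  ∃ W' : FreeMonoid G → FreeMonoid G → A, WtG r g v W'

/-- CWR (60 lines; no hypotheses). Restriction of weights along injective homomorphisms.

PROOF. `W a b = W (FreeMonoid.map φ a) (FreeMonoid.map φ b)`; `th (map φ a) = φ (th a)`; cubes map to
cubes. -/
def S_CWR : Prop := ∀ {Z Z' : Type u} [Group Z] [Group Z'] (φ : Z' →* Z), Function.Injective φ →
  ∀ (M r : ℕ) (c : Z'), CW M r (φ c) → CW M r c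

end Pool.Agent.SM2
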