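import Pool.Agent.SM2.St

/-!
# MP_e40716_gt (T1, second form): statements, part 2
-/

set_option autoImplicit false
set_option linter.unusedSectionVars false

open Matrix Pool.Agent.Lib25 Pool.Agent.KM Pool.Agent.SM1
open Pool.Agent.SUR (ZM bil bilHom th Cub altS IK DegV IsWtA WtAtA NilEuler)

noncomputable section

namespace Pool.Agent.SM2

universe u v w

/-- Every `g` over an `h` which is not the image of an element of finite order has a weight of degree at
most `r` in its centraliser, with values in `ℤ[1/M]`, `M` prime to the order of `h`. -/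
def ZW {G : Type u} [Group G] {Q : Type v} [Group Q] (π : G →* Q) (r : ℕ) : Prop :=
  ∀ g : G, NoFin π (π g) → ∃ M : ℕ, 0 < M ∧ M.Coprime (orderOf (π g)) ∧ CW M r (cel g)

/-- `ZW` on a cofinal family of subgroups. -/
def LZW {G : Type u} [Group G] {Q : Type v} [Group Q] (π : G →* Q) : Prop :=
  ∀ G0 : Subgroup G, G0.FG → ∃ G1 : Subgroup G, G0 ≤ G1 ∧ ∃ r : ℕ, ZW (π.comp G1.subtype) r

/-- NUM2 (ADAPTATION of `t_NUM`, SM1/P_NUM.lean; hypotheses `S_SUM2.{u, v}`, `S_RHO.{v}`, `S_RES.{u, u, v}`,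
`S_RES.{v, 0, v}`, `S_RCM.{u, v}`, `S_TRV.{v}` of SM1, `S_TRA.{u}`, `S_CWR.{u}`).

PROOF. That of `t_NUM`, with `S_SUM2` for `S_SUM`: for `g` in `G' = φ.range.comap π` with `q g = gn N`:
`π g = φ (gn N) = h`, `orderOf h = N`; the inclusion of the centraliser of `g` in `G'` into the
centraliser in `G` is injective and maps `cel g` to `cel g.1`: `S_CWR`; then `S_TRA` gives `CG M r g`. -/
def S_NUM2 : Prop := ∀ {G : Type u} [Group G] {Q : Type v} [Group Q] [Finite Q] (π : G →* Q),
  Function.Surjective π → ∀ r : ℕ, ZW π r → ∀ (z : K0 (LG ℤ G)) (X : K0 (LG ℤ Q)) (m : ℕ),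
  KNegOne.mk X = m • KNegOne.mk (K0.map (mapL (grm π)) z) →
  ∀ w : ∀ (p : ℕ) [Fact p.Prime], Q → ℚ_[p], Triv X w →
  ∃ y : Q → ℚ, ∀ (p : ℕ) [Fact p.Prime] (h : Q), p ∣ orderOf h → NoFin π h → w p h = (y h : ℚ_[p])

/-- FNS3 (ADAPTATION of `t_FNS2`; architect). -/
def S_FNS3 : Prop := ∀ {G : Type u} [Group G] {Q : Type v} [Group Q] [Finite Q] (π : G →* Q),
  Function.Surjective π → ∀ r : ℕ, ZW π r → ∀ x : KNegOne (MonoidAlgebra ℤ G),
  ∃ (n : ℕ) (s : Src G), 0 < n ∧ n • Kg π x = Kg π (asm G s)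

/-- FIN3 (ADAPTATION of `t_FIN2`; architect). **The theorem.** -/
def S_FIN3 : Prop := ∀ {G : Type u} [Group G] {Q : Type v} [Group Q] [Finite Q] (π : G →* Q),
  LZW π → ∀ x : KNegOne (MonoidAlgebra ℤ G),
  ∃ (n : ℕ) (s : Src G), 0 < n ∧ n • Kg π x = Kg π (asm G s)

/-- Every nonzero element of `A` is detected by an additive homomorphism to `ℤ[1/M]` for some `M`
prime to `N`. -/
def AddH {F : Type u} [Ring F] (A : Subring F) (N : ℕ) : Prop :=
  ∀ a : A, a ≠ 0 → ∃ (M : ℕ) (ψ : A →+ ZM M), 0 < M ∧ M.Coprime N ∧ ψ a ≠ 0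

/-- The condition on the element `g` with centraliser `Z`, for a subring `A` of a field `F`, `n > 0` and
`N`: if `F` has characteristic `0`, additive homomorphisms from `A` to rings `ℤ[1/M]`, `M` prime to `N`,
detect the nonzero elements of `A`; and either (a) `Z` has a homomorphism to `GL_n(A)` which maps `g` to
an element of infinite order, or (b) `F` has characteristic `0` and for some power `g ^ j`, `j > 0`, and
some `s : Z → A` and `v ≠ 0` with `s (g ^ j z) = s z + v`, the `n`-th cup power of the Euler cocycle of `s`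
is the coboundary of a homogeneous cochain on `Z/⟨g ^ j⟩` with values in `A`. -/
def CE {F : Type u} [Field F] (A : Subring F) (n N : ℕ) {G : Type u} [Group G] (g : G) : Prop :=
  (CharZero F → AddH A N) ∧
  ((∃ ρ : Subgroup.centralizer {g} →* Matrix (Fin n) (Fin n) A, ¬IsOfFinOrder (ρ (cel g))) ∨
    (CharZero F ∧ ∃ (j : ℕ) (v : A) (s : Subgroup.centralizer {g} → A)
      (φ : List (Subgroup.centralizer {g}) → A), 0 < j ∧ v ≠ 0 ∧ NilEuler (cel g ^ j) n v s φ))

/-- REP (150 lines; hypotheses `s_LEUL.{u, u}`, `s_LMONO.{u}`, `s_LCORE.{u, u}`, `s_LCORE.{u, 0}`,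
`s_LPSH.{u, u}`, `s_LPOW.{u}`, `s_LALG.{u, u}`, `s_LEIG.{u}` of SUR; ADAPTATION of Pool/Agent/SUR/LWE.lean).

PROOF. That of `LWEx.of_rep` and `t_LWE` without the last step `hTRA` (stop at the words in the
centraliser), with `M` and `ψ` from `AddH` for the element `v₁` at the place where `hψ` is used
(`M = 1` when a homomorphism to the integers is found); `LMONO` for the degree. -/
def S_REP : Prop := ∀ (F : Type u) [Field F] (S : Set F), S.Finite → ∀ n N : ℕ, 0 < n → ∀ {G : Type u}
  [Group G] (g : G), CE (Subring.closure S) n N g →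
  ∃ M : ℕ, 0 < M ∧ M.Coprime N ∧ CW M (n * n + n + 2) (cel g)

/-- `CE` for all `g` over an `h` which is not the image of an element of finite order, with one finitely
generated subring of a field and one `n`. -/
def CEul {G : Type u} [Group G] {Q : Type v} [Group Q] (π : G →* Q) : Prop :=
  ∃ (F : Type u) (_ : Field F) (S : Set F) (n : ℕ), S.Finite ∧ 0 < n ∧
    ∀ g : G, NoFin π (π g) → CE (Subring.closure S) n (orderOf (π g)) g

/-- `CEul` on a cofinal family of subgroups. -/
def LCE {G : Type u} [Group G] {Q : Type v} [Group Q] (π : G →* Q) : Prop :=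
  ∀ G0 : Subgroup G, G0.FG → ∃ G1 : Subgroup G, G0 ≤ G1 ∧ CEul (π.comp G1.subtype)

/-- LNR (120 lines; no hypotheses; compare Pool/Agent/SUR/LLIN.lean). Linear groups.

PROOF. `G0.map G.subtype` is finitely generated; `S` = the finite set of the entries of the generators and of
their inverses, `S ⊆ R`. All elements of `G0` have entries in `Subring.closure S`
(`Subgroup.closure_induction`), so there is an injective `ρ0 : G0 →* Matrix (Fin n) (Fin n) (closure S)`;
`ρ` its restriction to the centraliser. -/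
def S_LNR : Prop := ∀ (F : Type u) [Field F] (n : ℕ) (R : Subring F) (G : Subgroup (GL (Fin n) F)),
  (∀ g ∈ G, ∀ i j, (g : Matrix (Fin n) (Fin n) F) i j ∈ R) → ∀ G0 : Subgroup G, G0.FG →
  ∃ S : Set F, S.Finite ∧ S ⊆ R ∧ ∀ g : G0, ¬IsOfFinOrder g →
    ∃ ρ : Subgroup.centralizer {g} →* Matrix (Fin n) (Fin n) (Subring.closure S),
      ¬IsOfFinOrder (ρ (cel g))

/-- Additive homomorphisms to `ℤ` detect the nonzero elements of `R`. -/
def DetZ {F : Type u} [Ring F] (R : Subring F) : Prop :=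
  ∀ a : R, a ≠ 0 → ∃ ψ : R →+ ℤ, ψ a ≠ 0

/-- CLS (120 lines; hypotheses `S_LNR.{u}`, `s_NNF.{u}` of SUR/StA.lean). Linear groups satisfy the condition.

PROOF. (1) `R = ⊤` in positive characteristic; `DetZ R` gives `AddH (closure S) N` with `M = 1` (`closure S ≤ R`,
`ZM 1` contains the integers: `Int.castAddHom (ZM 1)`). `G1 = G0`; an element `g` with `NoFin` has infinite
order. The dimension must be positive: if `n = 0` there are no elements of infinite order (use `n + 1`
and `S = ∅`). (2) `M` from `s_NNF` for `S`; `AddH (closure S) N` for all `N` prime to `M`; the order of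
`π g` divides the order of `Q` (`orderOf_dvd_natCard`). -/
def S_CLS : Prop :=
  (∀ (F : Type u) [Field F] (n : ℕ) (R : Subring F) (G : Subgroup (GL (Fin n) F)),
    (∀ g ∈ G, ∀ i j, (g : Matrix (Fin n) (Fin n) F) i j ∈ R) → (CharZero F → DetZ R) →
    ∀ (Q : Type v) [Group Q] (π : G →* Q), LCE π) ∧
  (∀ (F : Type u) [Field F] (n : ℕ) (G : Subgroup (GL (Fin n) F)) (G0 : Subgroup G), G0.FG →
    ∃ M : ℕ, 0 < M ∧ ∀ (Q : Type v) [Group Q] [Finite Q] (π : G0 →* Q), M.Coprime (Nat.card Q) →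
      CEul π)

/-- HOM (60 lines; no hypotheses). Homomorphisms to the integers.

PROOF. `F = ULift ℚ`, `S = ∅` (or `{1}`), `n = 2`, `ρ z = !![1, f z; 0, 1]` (compare Pool/Agent/SUR/LLIN.lean, (2));
the subring generated by the empty set consists of the integers: `AddH` with `M = 1`. -/
def S_HOM : Prop := ∀ {G : Type u} [Group G] {Q : Type v} [Group Q] (π : G →* Q), Z1 π → CEul π

/-- The condition on the cohomology of centralisers: for some `M, r > 0`, `M` prime to `N`, each `g` with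
`P g` has a power `g ^ j = h ^ k`, `h` central in the centraliser `Z` of `g` of infinite order, with
`H^(2 r)(Z/⟨h⟩; ℤ[1/M]) = 0`. -/
def CCoh (N : ℕ) {G : Type u} [Group G] (P : G → Prop) : Prop :=
  ∃ M r : ℕ, 0 < M ∧ M.Coprime N ∧ 0 < r ∧ ∀ g : G, P g →
    ∃ (j k : ℕ) (h : Subgroup.centralizer {g}) (Q : Type u) (_ : Group Q)
      (p : Subgroup.centralizer {g} →* Q), 0 < j ∧ 0 < k ∧ h ^ k = cel g ^ j ∧ ¬IsOfFinOrder h ∧
      (∀ z, h * z = z * h) ∧ Function.Surjective p ∧ p.ker = Subgroup.zpowers h ∧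
      Subsingleton (groupCohomology
        (Rep.trivial (ULift.{u} (ZM M)) Q (ULift.{u} (ZM M))) (2 * r))

/-- COH (120 lines; hypothesis `s_LCOH.{u}` of SUR/StE.lean; ADAPTATION of Pool/Agent/SUR/LCC.lean). Vanishing
cohomology. (The orders of all `h` divide `N`.)

PROOF. As `t_LCC`: `F = ULift ℚ`, `S = {1/M}`, `n = r`; `NilEuler h r 1 s φ` (`LCOH`) gives
`NilEuler (h ^ k) r k ..`, `v = k ≠ 0`, `h ^ k = cel g ^ j`. `AddH (closure S) N'` for `N' ∣ N`: `closure S` is
`ZM M`, the identity. -/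
def S_COH : Prop := ∀ {G : Type u} [Group G] {Q : Type v} [Group Q] (π : G →* Q) (N : ℕ),
  (∀ h : Q, orderOf h ∣ N) → CCoh N (fun g : G => NoFin π (π g)) → CEul π

end Pool.Agent.SM2
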